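import Pool.Agent.W2helper68.CD.Neg

/-!
# For every `k ≥ 2` the asymptotic statement fails at `lam = k - 1`
-/

set_option autoImplicit false

namespace Pool.Agent.W2helper68.CD.Neg

open Finset Pool.Agent.R117.Cyc

section

variable {k n N : ℕ} [NeZero k] [Fact n.Prime] {ζ : ZMod n}

open scoped Classical in
lemma count_blocks [NeZero (k * n)] (hζ : IsPrimitiveRoot ζ k)
    (e : ZMod (k * n) ≃+* ZMod k × ZMod n) (x y : ZMod (k * n)) :
    ((univ : Finset ((ZMod n)ˣ × ZMod (k * n))).filter
      (fun p => x ∈ translate p.2 (Bl N ζ e p.1) ∧ y ∈ translate p.2 (Bl N ζ e p.1))).card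
    = ((univ : Finset ((ZMod n)ˣ × ZMod k × ZMod k)).filter
      (fun p => pt N ζ e p.1 p.2.2 - pt N ζ e p.1 p.2.1 = y - x)).card := by
  symm
  apply card_bij (fun p _ => (p.1, x - pt N ζ e p.1 p.2.1))
  · rintro ⟨m, i, j⟩ h
    simp only [mem_filter, mem_univ, true_and] at h ⊢
    rw [mem_translate, mem_translate, sub_sub_cancel]
    unfold Bl
    refine ⟨mem_image_of_mem _ (mem_univ _), ?_⟩
    have : y - (x - pt N ζ e m i) = pt N ζ e m j := by rw [sub_sub_eq_add_sub, add_sub_right_comm, ← h]; ring
    rw [this]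
    exact mem_image_of_mem _ (mem_univ _)
  · rintro ⟨m, i, j⟩ h ⟨m', i', j'⟩ h' heq
    simp only [mem_filter, mem_univ, true_and] at h h'
    simp only [Prod.mk.injEq] at heq
    obtain ⟨rfl, h2⟩ := heq
    have h3 : i = i' := pt_inj hζ e m (by simpa using h2)
    subst h3
    have h4 : j = j' := pt_inj hζ e m (by
      have := h.trans h'.symm
      simpa using this)
    rw [h4]
  · rintro ⟨m, t⟩ h
    simp only [mem_filter, mem_univ, true_and] at h
    rw [mem_translate, mem_translate] at h
    unfold Bl at h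
    rw [mem_image, mem_image] at h
    obtain ⟨⟨i, -, hi⟩, ⟨j, -, hj⟩⟩ := h
    refine ⟨(m, i, j), ?_, ?_⟩
    · simp only [mem_filter, mem_univ, true_and]
      rw [hi, hj]; ring
    · simp only [Prod.mk.injEq, true_and]
      rw [hi]; ring

lemma mem_Sl [NeZero (k * n)] (e : ZMod (k * n) ≃+* ZMod k × ZMod n) (y : ZMod n)
    (x : ZMod (k * n)) : x ∈ Sl e y ↔ (e x).2 = y := by
  unfold Sl
  rw [mem_image]
  constructor
  · rintro ⟨i, -, rfl⟩; simp
  · intro h
    exact ⟨(e x).1, mem_univ _, by rw [RingEquiv.symm_apply_eq]; exact Prod.ext rfl h.symm⟩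

lemma translate_Sl [NeZero (k * n)] (e : ZMod (k * n) ≃+* ZMod k × ZMod n) (y : ZMod n)
    (t : ZMod (k * n)) : translate t (Sl e y) = Sl e (y + (e t).2) := by
  ext x
  rw [mem_translate, mem_Sl, mem_Sl, map_sub, Prod.snd_sub, sub_eq_iff_eq_add]

theorem design_isCyclic [NeZero (k * n)] (hζ : IsPrimitiveRoot ζ k) (hn : n - 1 = k * N)
    (hc : Nat.Coprime k N) (e : ZMod (k * n) ≃+* ZMod k × ZMod n) :
    IsCyclicDesign (k * n) k (k - 1) (design N ζ e) := by
  classical
  constructor
  · intro B hB
    unfold design at hB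
    rw [Multiset.mem_add] at hB
    rcases hB with hB | hB
    · rw [Multiset.mem_map] at hB
      obtain ⟨p, -, rfl⟩ := hB
      rw [card_translate]
      unfold Bl
      rw [card_image_of_injective _ (pt_inj hζ e p.1), card_univ, ZMod.card]
    · have hB' := Multiset.mem_of_mem_nsmul hB
      rw [Multiset.mem_map] at hB'
      obtain ⟨y, -, rfl⟩ := hB'
      unfold Sl
      rw [card_image_of_injective, card_univ, ZMod.card]
      intro i j h
      exact (Prod.mk.inj (e.symm.injective h)).1
  · intro x y hxy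
    rw [← Multiset.countP_eq_card_filter]
    unfold design
    rw [Multiset.countP_add, Multiset.countP_nsmul, Multiset.countP_map, Multiset.countP_map]
    have h1 : Multiset.card (Multiset.filter (fun p : (ZMod n)ˣ × ZMod (k * n) =>
        x ∈ translate p.2 (Bl N ζ e p.1) ∧ y ∈ translate p.2 (Bl N ζ e p.1))
        (univ : Finset ((ZMod n)ˣ × ZMod (k * n))).val)
        = if (e (y - x)).2 = 0 then 0 else k - 1 := by
      rw [← count_diff hζ hn hc e (y - x) (sub_ne_zero.2 (Ne.symm hxy)), ← count_blocks hζ e x y]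
      rfl
    have h2 : Multiset.card (Multiset.filter (fun z : ZMod n => x ∈ Sl e z ∧ y ∈ Sl e z)
        (univ : Finset (ZMod n)).val) = if (e (y - x)).2 = 0 then 1 else 0 := by
      have h3 : Multiset.card (Multiset.filter (fun z : ZMod n => x ∈ Sl e z ∧ y ∈ Sl e z)
        (univ : Finset (ZMod n)).val)
        = ((univ : Finset (ZMod n)).filter (fun z => x ∈ Sl e z ∧ y ∈ Sl e z)).card := rfl
      rw [h3]
      simp_rw [mem_Sl]
      rw [map_sub, Prod.snd_sub]
      split_ifs with h
      · rw [sub_eq_zero] at h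
        rw [h]
        have : (univ : Finset (ZMod n)).filter (fun z => (e x).2 = z ∧ (e x).2 = z) = {(e x).2} := by
          ext z; simp [eq_comm]
        rw [this, card_singleton]
      · rw [card_eq_zero, filter_eq_empty_iff]
        rintro z - ⟨a, b⟩
        apply h
        rw [a, b, sub_self]
    rw [h1, h2]
    split_ifs <;> simp
  · intro t B
    have hmap : (design N ζ e).map (fun C => Pool.Agent.R117.Cyc.translate t C) = design N ζ e := by
      unfold design
      rw [Multiset.map_add, Multiset.map_nsmul, Multiset.map_map, Multiset.map_map]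
      congr 1
      · have h1 : ((fun C => Pool.Agent.R117.Cyc.translate t C) ∘ fun p : (ZMod n)ˣ × ZMod (k * n) =>
            Pool.Agent.R117.Cyc.translate p.2 (Bl N ζ e p.1))
            = (fun p : (ZMod n)ˣ × ZMod (k * n) => Pool.Agent.R117.Cyc.translate p.2 (Bl N ζ e p.1))
              ∘ (Equiv.prodCongr (Equiv.refl _) (Equiv.addRight t)) := by
          funext p
          simp only [Function.comp, Equiv.prodCongr_apply, Equiv.coe_refl, Prod.map, id,
            Equiv.coe_addRight]
          rw [Pool.Agent.R117.Cyc.translate_translate]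
        rw [h1, ← Multiset.map_map, Multiset.map_univ_val_equiv]
      · congr 1
        have h1 : ((fun C => Pool.Agent.R117.Cyc.translate t C) ∘ Sl (k := k) (n := n) e)
            = Sl e ∘ (Equiv.addRight (e t).2) := by
          funext y
          simp only [Function.comp, Equiv.coe_addRight]
          rw [translate_Sl]
        rw [h1, ← Multiset.map_map, Multiset.map_univ_val_equiv]
    have hinj : Function.Injective (fun C : Finset (ZMod (k * n)) => Pool.Agent.R117.Cyc.translate t C) := by
      intro C D h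
      have h' : Pool.Agent.R117.Cyc.translate (-t) (Pool.Agent.R117.Cyc.translate t C) = Pool.Agent.R117.Cyc.translate (-t) (Pool.Agent.R117.Cyc.translate t D) := by
        simp only at h; rw [h]
      rwa [Pool.Agent.R117.Cyc.translate_translate, Pool.Agent.R117.Cyc.translate_translate, add_neg_cancel, Pool.Agent.R117.Cyc.translate_zero,
        Pool.Agent.R117.Cyc.translate_zero] at h'
    have := Multiset.count_map_eq_count' (fun C => Pool.Agent.R117.Cyc.translate t C) (design N ζ e) hinj B
    rw [hmap] at this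
    exact this

theorem exists_bad (hk : 3 ≤ k) [NeZero (k * n)] (hζ : IsPrimitiveRoot ζ k) (hn : n - 1 = k * N)
    (hc : Nat.Coprime k N) (e : ZMod (k * n) ≃+* ZMod k × ZMod n) :
    ¬ HasDisjointReps (design N ζ e) := by
  have hone : (1 : ZMod k) ≠ 0 := by
    have : Fact (1 < k) := ⟨by omega⟩
    exact one_ne_zero
  apply no_reps hk (design N ζ e) (design_isCyclic hζ hn hc e) (Sl e 0) _ (e.symm (1, 0))
  · intro h
    rw [RingEquiv.symm_apply_eq, map_zero] at h
    exact hone (Prod.mk.inj h).1
  · rw [translate_Sl]; simp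
  · unfold design
    rw [Multiset.mem_add]
    right
    rw [Multiset.mem_nsmul]
    exact ⟨by omega, Multiset.mem_map.2 ⟨0, mem_univ_val _, rfl⟩⟩

end

/-- `k ≥ 3`: infinitely many counterexamples. -/
theorem neg_ge_three (k : ℕ) (hk : 3 ≤ k) (v0 : ℕ) : ∃ v : ℕ, v0 ≤ v ∧ 1 ≤ v ∧
    ∃ Bs : Multiset (Finset (ZMod v)), IsCyclicDesign v k (k - 1) Bs ∧ ¬ HasDisjointReps Bs := by
  have : NeZero k := ⟨by omega⟩
  have hcop : (1 + k).Coprime (k ^ 2) := by
    apply Nat.Coprime.pow_right
    rw [Nat.add_comm, Nat.coprime_self_add_left]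
    exact Nat.coprime_one_left k
  obtain ⟨p, hp1, hp2, hp3⟩ := Nat.forall_exists_prime_gt_and_modEq (v0 + k + 1)
    (q := k ^ 2) (a := 1 + k) (by positivity) hcop
  have : Fact p.Prime := ⟨hp2⟩
  have : NeZero p := ⟨hp2.ne_zero⟩
  have : NeZero (k * p) := ⟨Nat.mul_ne_zero (NeZero.ne k) (NeZero.ne p)⟩
  obtain ⟨c, hc⟩ := (Nat.modEq_iff_dvd' (by omega)).1 hp3.symm
  set N : ℕ := 1 + k * c with hN
  have hpN : p - 1 = k * N := by
    have : p = 1 + k + k ^ 2 * c := by omega
    rw [this, hN]
    have : 1 + k + k ^ 2 * c - 1 = k + k ^ 2 * c := by omega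
    rw [this]; ring
  have hcN : Nat.Coprime k N := by
    rw [hN]
    rw [Nat.coprime_add_mul_left_right]
    exact Nat.coprime_one_right k
  have hcp : Nat.Coprime k p := by
    rw [Nat.coprime_comm, hp2.coprime_iff_not_dvd]
    intro h
    have := Nat.le_of_dvd (by omega) h
    omega
  -- primitive root
  obtain ⟨g, hg⟩ := IsCyclic.exists_generator (α := (ZMod p)ˣ)
  have hgo : orderOf g = k * N := by
    rw [orderOf_eq_card_of_forall_mem_zpowers hg, Nat.card_eq_fintype_card, ZMod.card_units, hpN]
  have hgp : IsPrimitiveRoot g (N * k) := by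
    rw [mul_comm, ← hgo]; exact IsPrimitiveRoot.orderOf g
  have hNk : 0 < N * k := by
    apply Nat.mul_pos _ (by omega)
    rw [hN]; omega
  have hζ0 : IsPrimitiveRoot (g ^ N) k := hgp.pow hNk rfl
  have hζ : IsPrimitiveRoot ((g ^ N : (ZMod p)ˣ) : ZMod p) k := IsPrimitiveRoot.coe_units_iff.2 hζ0
  refine ⟨k * p, ?_, ?_, design N _ (ZMod.chineseRemainder hcp),
    design_isCyclic hζ hpN hcN _, exists_bad hk hζ hpN hcN _⟩
  · nlinarith
  · nlinarith

end Pool.Agent.W2helper68.CD.Neg
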