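import Pool.Agent.R117.Cyc2

/-!
# `k = 2`, `lam = 1`: the parity obstruction for `v ≡ 4 (mod 8)`
-/

set_option autoImplicit false

namespace Pool.Agent.W2helper68.CD.Neg3

open Finset Pool.Agent.R117.Cyc

variable {v : ℕ} [NeZero v]

/-- all pairs -/
noncomputable def pairs (v : ℕ) [NeZero v] : Multiset (Finset (ZMod v)) :=
  ((univ : Finset (ZMod v)).powersetCard 2).val

lemma pairs_isCyclic : IsCyclicDesign v 2 1 (pairs v) := by
  classical
  constructor
  · intro B hB
    unfold pairs at hB
    rw [Finset.mem_val, mem_powersetCard] at hB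
    exact hB.2
  · intro x y hxy
    have h1 : Multiset.card ((pairs v).filter (fun B => x ∈ B ∧ y ∈ B))
        = (((univ : Finset (ZMod v)).powersetCard 2).filter (fun B => x ∈ B ∧ y ∈ B)).card := rfl
    rw [h1]
    have h2 : ((univ : Finset (ZMod v)).powersetCard 2).filter (fun B => x ∈ B ∧ y ∈ B)
        = {{x, y}} := by
      ext B
      rw [mem_filter, mem_powersetCard, mem_singleton]
      constructor
      · rintro ⟨⟨-, hB⟩, hx, hy⟩
        symm
        apply eq_of_subset_of_card_le
        · intro z hz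
          rcases mem_insert.1 hz with rfl | hz
          · exact hx
          · rw [mem_singleton.1 hz]; exact hy
        · rw [hB, card_pair hxy]
      · rintro rfl
        exact ⟨⟨subset_univ _, card_pair hxy⟩, by simp, by simp⟩
    rw [h2, card_singleton]
  · intro t B
    unfold pairs
    rw [Multiset.count_eq_of_nodup (Finset.nodup _), Multiset.count_eq_of_nodup (Finset.nodup _)]
    simp only [Finset.mem_val, mem_powersetCard, subset_univ, true_and, card_translate]

/-- disjoint blocks: sum over the union -/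
lemma sum_of_cover {M : Type} [AddCommMonoid M] (s : Finset ℕ) (g : ℕ → Finset (ZMod v))
    (hd : ∀ a ∈ s, ∀ b ∈ s, a ≠ b → Disjoint (g a) (g b)) (hc : ∑ a ∈ s, (g a).card = v)
    (f : ZMod v → M) : ∑ x, f x = ∑ a ∈ s, ∑ x ∈ g a, f x := by
  classical
  have hd' : Set.PairwiseDisjoint (s : Set ℕ) g := fun a ha b hb hab => hd a ha b hb hab
  rw [← sum_biUnion hd']
  have : s.biUnion g = univ := by
    apply eq_univ_of_card
    rw [card_biUnion hd', hc, ZMod.card]
  rw [this]

lemma sum_odd (j : ℕ) : ∑ d ∈ Finset.range (4 * j + 2), ((d + 1 : ℕ) : ZMod 2) = 1 := by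
  induction j with
  | zero => decide
  | succ j ih =>
    rw [show 4 * (j + 1) + 2 = (4 * j + 2) + 1 + 1 + 1 + 1 by ring]
    rw [sum_range_succ, sum_range_succ, sum_range_succ, sum_range_succ, ih]
    push_cast
    have h2 : (2 : ZMod 2) = 0 := rfl
    linear_combination (8 * (j : ZMod 2) + 9) * h2

theorem no_reps_two (j : ℕ) [NeZero (8 * j + 4)] : ¬ HasDisjointReps (pairs (8 * j + 4)) := by
  classical
  set v : ℕ := 8 * j + 4 with hv
  rintro ⟨R, hdis, hR0⟩
  have hR : ∀ B : Finset (ZMod v),
      Multiset.card (R.filter (fun C => ∃ t, C = translate t B)) = (pairs v).count B := by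
    intro B; convert hR0 B
  have hmem : ∀ C ∈ R, C.card = 2 := by
    intro C hC
    have h1 : 0 < Multiset.card (R.filter (fun C' => ∃ t, C' = translate t C)) :=
      Multiset.card_pos_iff_exists_mem.2
        ⟨C, Multiset.mem_filter.2 ⟨hC, 0, (translate_zero C).symm⟩⟩
    rw [hR C] at h1
    exact (pairs_isCyclic (v := v)).card_block C (Multiset.count_pos.1 h1)
  have hle := card_mul_le R hdis 2 hmem
  -- a representative for every difference
  have hval : ∀ d : ℕ, d < v → ((d : ℕ) : ZMod v).val = d := fun d hd => by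
    rw [ZMod.val_natCast, Nat.mod_eq_of_lt hd]
  have hex : ∀ d ∈ Finset.range (4 * j + 2), ∃ C ∈ R, ∃ t : ZMod v,
      C = translate t {0, ((d + 1 : ℕ) : ZMod v)} := by
    intro d hd
    rw [mem_range] at hd
    have hne : (0 : ZMod v) ≠ ((d + 1 : ℕ) : ZMod v) := by
      intro h
      have := congrArg ZMod.val h
      rw [hval _ (by omega), ZMod.val_zero] at this
      omega
    have h1 : 0 < Multiset.card (R.filter
        (fun C => ∃ t, C = translate t ({0, ((d + 1 : ℕ) : ZMod v)} : Finset (ZMod v)))) := by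
      rw [hR]
      rw [Multiset.count_pos]
      unfold pairs
      rw [Finset.mem_val, mem_powersetCard]
      exact ⟨subset_univ _, card_pair hne⟩
    obtain ⟨C, hC⟩ := Multiset.card_pos_iff_exists_mem.1 h1
    rw [Multiset.mem_filter] at hC
    exact ⟨C, hC.1, hC.2⟩
  choose! g hg1 t hg2 using hex
  -- parity of a block
  have h2v : 2 ∣ v := ⟨4 * j + 2, by omega⟩
  let π : ZMod v →+* ZMod 2 := ZMod.castHom h2v (ZMod 2)
  have hpair : ∀ (t : ZMod v) (d : ℕ), d < 4 * j + 2 →
      ∑ x ∈ translate t ({0, ((d + 1 : ℕ) : ZMod v)} : Finset (ZMod v)), π x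
        = ((d + 1 : ℕ) : ZMod 2) := by
    intro t d hd
    have hne : (0 : ZMod v) ≠ ((d + 1 : ℕ) : ZMod v) := by
      intro h
      have := congrArg ZMod.val h
      rw [hval _ (by omega), ZMod.val_zero] at this
      omega
    unfold Pool.Agent.R117.Cyc.translate
    rw [sum_map, sum_pair hne]
    simp only [addRightEmbedding_apply, map_add, map_zero, zero_add, map_natCast]
    have h2 : (2 : ZMod 2) = 0 := rfl
    linear_combination (π t) * h2
  -- distinct differences give distinct blocks
  have hdiff : ∀ a ∈ Finset.range (4 * j + 2), ∀ b ∈ Finset.range (4 * j + 2),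
      g a = g b → a = b := by
    intro a ha b hb hab
    have ha' := mem_range.1 ha
    have hb' := mem_range.1 hb
    rw [hg2 a ha, hg2 b hb] at hab
    have h1 : translate (-t b) (translate (t a) ({0, ((a + 1 : ℕ) : ZMod v)} : Finset (ZMod v)))
        = {0, ((b + 1 : ℕ) : ZMod v)} := by
      rw [hab, Pool.Agent.R117.Cyc.translate_translate, add_neg_cancel,
        Pool.Agent.R117.Cyc.translate_zero]
    rw [Pool.Agent.R117.Cyc.translate_translate] at h1
    set s : ZMod v := t a + -t b with hs
    have m0 : s ∈ ({0, ((b + 1 : ℕ) : ZMod v)} : Finset (ZMod v)) := by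
      rw [← h1, mem_translate]; simp
    have m1 : ((a + 1 : ℕ) : ZMod v) + s ∈ ({0, ((b + 1 : ℕ) : ZMod v)} : Finset (ZMod v)) := by
      rw [← h1, mem_translate]; simp
    rw [mem_insert, mem_singleton] at m0 m1
    have hne : ((a + 1 : ℕ) : ZMod v) ≠ 0 := by
      intro h
      have := congrArg ZMod.val h
      rw [hval _ (by omega), ZMod.val_zero] at this
      omega
    rcases m0 with m0 | m0
    · rw [m0, add_zero] at m1
      rcases m1 with m1 | m1
      · exact absurd m1 hne
      · have := congrArg ZMod.val m1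
        rw [hval _ (by omega), hval _ (by omega)] at this
        omega
    · rcases m1 with m1 | m1
      · rw [m0] at m1
        have h3 : (((a + 1) + (b + 1) : ℕ) : ZMod v) = 0 := by rw [← m1]; push_cast; ring
        rw [ZMod.natCast_eq_zero_iff] at h3
        have := Nat.le_of_dvd (by omega) h3
        omega
      · rw [m0] at m1
        exact absurd (by simpa using m1) hne
  -- the blocks `g d` are pairwise disjoint
  obtain ⟨l, hl, hlp⟩ := hdis
  have hdisj : ∀ a ∈ Finset.range (4 * j + 2), ∀ b ∈ Finset.range (4 * j + 2), a ≠ b →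
      Disjoint (g a) (g b) := by
    intro a ha b hb hab
    have h1 := hg1 a ha
    have h2 := hg1 b hb
    rw [hl, Multiset.mem_coe] at h1 h2
    have hne : g a ≠ g b := fun h => hab (hdiff a ha b hb h)
    exact hlp.forall h1 h2 hne
  have hcard : ∑ a ∈ Finset.range (4 * j + 2), (g a).card = v := by
    rw [sum_congr rfl (fun a ha => hmem _ (hg1 a ha)), sum_const, card_range, smul_eq_mul, hv]
    ring
  have hsum := sum_of_cover (Finset.range (4 * j + 2)) g hdisj hcard (fun x => π x)
  have hrhs : ∑ a ∈ Finset.range (4 * j + 2), ∑ x ∈ g a, π x = 1 := by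
    rw [← sum_odd j]
    refine sum_congr rfl (fun a ha => ?_)
    rw [hg2 a ha]
    exact hpair (t a) a (mem_range.1 ha)
  have hlhs : ∑ x : ZMod v, π x = 0 := by
    have hh : ((4 * j + 2 : ℕ) : ZMod v) ≠ 0 := by
      intro h
      have := congrArg ZMod.val h
      rw [hval _ (by omega), ZMod.val_zero] at this
      omega
    apply sum_involution (fun x _ => x + ((4 * j + 2 : ℕ) : ZMod v))
    · intro x _
      rw [map_add, map_natCast]
      have h2 : (2 : ZMod 2) = 0 := rfl
      push_cast
      linear_combination (π x + 2 * (j : ZMod 2) + 1) * h2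
    · intro x _ _ h
      apply hh
      simpa using h
    · intro x _; exact mem_univ _
    · intro x _
      have : (((4 * j + 2) + (4 * j + 2) : ℕ) : ZMod v) = 0 := by
        rw [show (4 * j + 2) + (4 * j + 2) = v by omega]
        exact ZMod.natCast_self v
      rw [add_assoc, ← Nat.cast_add, this, add_zero]
  rw [hlhs, hrhs] at hsum
  exact absurd hsum (by decide)

theorem neg_two (v0 : ℕ) : ∃ v : ℕ, v0 ≤ v ∧ 1 ≤ v ∧
    ∃ Bs : Multiset (Finset (ZMod v)), IsCyclicDesign v 2 1 Bs ∧ ¬ HasDisjointReps Bs := by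
  have : NeZero (8 * v0 + 4) := ⟨by omega⟩
  exact ⟨8 * v0 + 4, by omega, by omega, pairs _, pairs_isCyclic, no_reps_two v0⟩

end Pool.Agent.W2helper68.CD.Neg3
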