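import Pool.Agent.R117.Cyc2

/-!
# Greedy choice of disjoint translates, short orbits
-/

set_option autoImplicit false

namespace Pool.Agent.W2helper68.CD

open Finset Pool.Agent.R117.Cyc

variable {v : ℕ} [NeZero v]

/-- translations `t` such that `A + t` contains `y` -/
lemma card_contains (A : Finset (ZMod v)) (y : ZMod v) :
    ((univ : Finset (ZMod v)).filter (fun t => y ∈ translate t A)).card = A.card := by
  have h : (univ : Finset (ZMod v)).filter (fun t => y ∈ translate t A)
      = A.image (fun a => y - a) := by
    ext t
    simp only [mem_filter, mem_univ, true_and, mem_translate, mem_image]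
    constructor
    · intro h; exact ⟨y - t, h, by ring⟩
    · rintro ⟨a, ha, rfl⟩; simpa using ha
  rw [h, card_image_of_injective _ (fun a b h => by simpa using h)]

/-- translations `t` such that `A + t` meets `F` -/
lemma card_meets (A F : Finset (ZMod v)) :
    ((univ : Finset (ZMod v)).filter (fun t => ¬ Disjoint (translate t A) F)).card
      ≤ A.card * F.card := by
  classical
  have h : (univ : Finset (ZMod v)).filter (fun t => ¬ Disjoint (translate t A) F)
      ⊆ F.biUnion (fun y => (univ : Finset (ZMod v)).filter (fun t => y ∈ translate t A)) := by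
    intro t ht
    rw [mem_filter] at ht
    rw [Finset.not_disjoint_iff] at ht
    obtain ⟨-, y, hy1, hy2⟩ := ht
    rw [mem_biUnion]
    exact ⟨y, hy2, by simp [hy1]⟩
  refine (card_le_card h).trans (card_biUnion_le.trans ?_)
  simp_rw [card_contains]
  rw [sum_const, smul_eq_mul, mul_comm]

/-- greedy choice -/
lemma greedy {ι : Type} [DecidableEq ι] (A : ι → Finset (ZMod v)) (k : ℕ)
    (hk : ∀ i, (A i).card = k) (T : ι → Finset (ZMod v)) (F : Finset (ZMod v)) (J : Finset ι) :
    (∀ j ∈ J, k * (F.card + k * J.card) < (T j).card) →
    ∃ t : ι → ZMod v, (∀ j ∈ J, t j ∈ T j) ∧ (∀ j ∈ J, Disjoint (translate (t j) (A j)) F) ∧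
      (∀ i ∈ J, ∀ j ∈ J, i ≠ j → Disjoint (translate (t i) (A i)) (translate (t j) (A j))) := by
  classical
  induction J using Finset.induction_on with
  | empty => intro _; exact ⟨fun _ => 0, by simp, by simp, by simp⟩
  | insert j J hj ih =>
    intro h
    obtain ⟨t, ht1, ht2, ht3⟩ := ih (fun i hi => lt_of_le_of_lt
      (Nat.mul_le_mul_left _ (Nat.add_le_add_left (Nat.mul_le_mul_left _
        (card_le_card (subset_insert _ _))) _)) (h i (mem_insert_of_mem hi)))
    set F' : Finset (ZMod v) := F ∪ J.biUnion (fun i => translate (t i) (A i)) with hF'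
    have hF'c : F'.card ≤ F.card + k * J.card := by
      refine (card_union_le _ _).trans (Nat.add_le_add_left (card_biUnion_le.trans ?_) _)
      simp_rw [card_translate, hk]
      rw [sum_const, smul_eq_mul, mul_comm]
    have hex : ∃ s ∈ T j, Disjoint (translate s (A j)) F' := by
      by_contra hcon
      push Not at hcon
      have hsub : T j ⊆ (univ : Finset (ZMod v)).filter
          (fun t => ¬ Disjoint (translate t (A j)) F') := by
        intro s hs
        rw [mem_filter]
        exact ⟨mem_univ _, hcon s hs⟩
      have h1 := (card_le_card hsub).trans (card_meets (A j) F')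
      rw [hk] at h1
      have h2 := h j (mem_insert_self _ _)
      rw [card_insert_of_notMem hj] at h2
      have h3 : k * F'.card ≤ k * (F.card + k * (J.card + 1)) :=
        Nat.mul_le_mul_left _ (hF'c.trans (Nat.add_le_add_left
          (Nat.mul_le_mul_left _ (Nat.le_succ _)) _))
      omega
    obtain ⟨s, hs1, hs2⟩ := hex
    have hne : ∀ i ∈ J, i ≠ j := fun i hi h => hj (h ▸ hi)
    refine ⟨Function.update t j s, ?_, ?_, ?_⟩
    · intro i hi
      rcases mem_insert.1 hi with rfl | hi
      · simpa using hs1
      · rw [Function.update_of_ne (hne i hi)]; exact ht1 i hi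
    · intro i hi
      rcases mem_insert.1 hi with rfl | hi
      · rw [Function.update_self]
        exact disjoint_of_subset_right subset_union_left hs2
      · rw [Function.update_of_ne (hne i hi)]; exact ht2 i hi
    · have key : ∀ i ∈ J, Disjoint (translate s (A j)) (translate (t i) (A i)) := by
        intro i hi
        refine disjoint_of_subset_right ?_ hs2
        exact (subset_biUnion_of_mem (fun i => translate (t i) (A i)) hi).trans subset_union_right
      intro i hi i' hi' hii
      rcases mem_insert.1 hi with h1 | h1 <;> rcases mem_insert.1 hi' with h2 | h2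
      · exact absurd (h1.trans h2.symm) hii
      · subst h1
        rw [Function.update_self, Function.update_of_ne (hne i' h2)]
        exact key i' h2
      · subst h2
        rw [Function.update_self, Function.update_of_ne (hne i h1)]
        exact (key i h1).symm
      · rw [Function.update_of_ne (hne i h1), Function.update_of_ne (hne i' h2)]
        exact ht3 i h1 i' h2 hii

/-- a set is full if it has trivial stabiliser -/
def Full (A : Finset (ZMod v)) : Prop := ∀ t : ZMod v, t ≠ 0 → translate t A ≠ A

lemma translate_inj {A : Finset (ZMod v)} (h : Full A) : Function.Injective (fun t => translate t A) := by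
  intro s t hst
  by_contra hne
  apply h (s - t) (sub_ne_zero.2 hne)
  have h1 : translate (-t) (translate s A) = translate (-t) (translate t A) := by
    simp only at hst; rw [hst]
  rw [translate_translate, translate_translate, add_neg_cancel, translate_zero] at h1
  rw [sub_eq_add_neg]; exact h1

lemma card_orb_filter {A : Finset (ZMod v)} (h : Full A) (p : Finset (ZMod v) → Prop)
    [DecidablePred p] :
    ((orb A).filter p).card
      = ((univ : Finset (ZMod v)).filter (fun t => p (translate t A))).card := by
  unfold orb
  rw [filter_image, card_image_of_injective _ (translate_inj h)]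

lemma mul_eq_zero_of_stab {A : Finset (ZMod v)} {t : ZMod v} (h : translate t A = A) :
    (A.card : ZMod v) * t = 0 := by
  have h1 : ∑ x ∈ translate t A, x = ∑ x ∈ A, x + (A.card : ZMod v) * t := by
    unfold Pool.Agent.R117.Cyc.translate
    rw [sum_map]
    simp only [addRightEmbedding_apply]
    rw [sum_add_distrib, sum_const, nsmul_eq_mul]
  rw [h] at h1
  simpa using h1.symm

/-- The number of `t` with `k t = 0`. -/
lemma card_torsion_le (k : ℕ) (hk : 1 ≤ k) :
    ((univ : Finset (ZMod v)).filter (fun t => (k : ZMod v) * t = 0)).card ≤ k := by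
  -- solutions of k t = 0 in a cyclic group
  have h := IsAddCyclic.card_nsmul_eq_zero_le (α := ZMod v) (n := k) hk
  refine le_trans (le_of_eq ?_) h
  congr 1
  ext t
  simp [nsmul_eq_mul]

open scoped Classical in
/-- There are few short orbits. -/
lemma card_short_le {ι : Type} [Fintype ι] (A : ι → Finset (ZMod v)) (k lam : ℕ) (hk1 : 1 ≤ k)
    (hk : ∀ i, (A i).card = k)
    (hpair : ∀ x y : ZMod v, x ≠ y →
      ∑ i, ((orb (A i)).filter (fun C => x ∈ C ∧ y ∈ C)).card ≤ lam) :
    ((univ : Finset ι).filter (fun i => ¬ Full (A i))).card ≤ k * lam := by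
  have hsub : (univ : Finset ι).filter (fun i => ¬ Full (A i)) ⊆
      ((univ : Finset (ZMod v)).filter (fun t => (k : ZMod v) * t = 0 ∧ t ≠ 0)).biUnion
        (fun t => (univ : Finset ι).filter (fun i => translate t (A i) = A i)) := by
    intro i hi
    rw [mem_filter] at hi
    unfold Full at hi
    push Not at hi
    obtain ⟨-, t, ht0, ht⟩ := hi
    rw [mem_biUnion]
    refine ⟨t, ?_, by simp [ht]⟩
    rw [mem_filter]
    refine ⟨mem_univ _, ?_, ht0⟩
    have := mul_eq_zero_of_stab ht
    rwa [hk] at this
  refine (card_le_card hsub).trans (card_biUnion_le.trans ?_)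
  have h1 : ∀ t ∈ (univ : Finset (ZMod v)).filter (fun t => (k : ZMod v) * t = 0 ∧ t ≠ 0),
      ((univ : Finset ι).filter (fun i => translate t (A i) = A i)).card ≤ lam := by
    intro t ht
    rw [mem_filter] at ht
    refine le_trans ?_ (hpair 0 t (Ne.symm ht.2.2))
    rw [card_filter]
    refine sum_le_sum (fun i _ => ?_)
    split_ifs with h
    · rw [Nat.succ_le_iff, card_pos]
      have hne : (A i).Nonempty := by rw [← card_pos, hk]; omega
      obtain ⟨a, ha⟩ := hne
      refine ⟨translate (-a) (A i), ?_⟩
      rw [mem_filter]
      refine ⟨?_, ?_, ?_⟩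
      · unfold orb; exact mem_image_of_mem _ (mem_univ _)
      · rw [mem_translate]; simpa using ha
      · rw [mem_translate]
        have : t - -a ∈ translate t (A i) := by
          rw [mem_translate]
          have e : t - -a - t = a := by ring
          rw [e]; exact ha
        rwa [h] at this
    · exact Nat.zero_le _
  refine (sum_le_card_nsmul _ _ _ h1).trans ?_
  rw [smul_eq_mul]
  refine Nat.mul_le_mul_right _ (le_trans (card_le_card ?_) (card_torsion_le k hk1))
  intro t ht
  rw [mem_filter] at ht ⊢
  exact ⟨ht.1, ht.2.1⟩

open scoped Classical in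
/-- The number of full orbits. -/
lemma card_full_le {ι : Type} [Fintype ι] (A : ι → Finset (ZMod v)) (k lam : ℕ)
    (hk : ∀ i, (A i).card = k)
    (hpair : ∀ x y : ZMod v, x ≠ y →
      ∑ i, ((orb (A i)).filter (fun C => x ∈ C ∧ y ∈ C)).card ≤ lam) :
    ((univ : Finset ι).filter (fun i => Full (A i))).card * (k * (k - 1)) ≤ lam * v := by
  have h1 : ∑ y ∈ (univ : Finset (ZMod v)).erase 0,
      ∑ i, ((orb (A i)).filter (fun C => (0 : ZMod v) ∈ C ∧ y ∈ C)).card ≤ lam * v := by
    refine (sum_le_card_nsmul _ _ lam (fun y hy => hpair 0 y (Ne.symm (ne_of_mem_erase hy)))).trans ?_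
    rw [smul_eq_mul, mul_comm]
    refine Nat.mul_le_mul_left _ ((card_le_card (erase_subset _ _)).trans ?_)
    rw [card_univ, ZMod.card]
  refine le_trans ?_ h1
  rw [sum_comm, ← smul_eq_mul, ← sum_const, sum_filter]
  refine sum_le_sum (fun i _ => ?_)
  split_ifs with h
  · have h2 : ∀ y : ZMod v, ((orb (A i)).filter (fun C => (0 : ZMod v) ∈ C ∧ y ∈ C)).card
        = ∑ t ∈ (univ : Finset (ZMod v)).filter (fun t => (0 : ZMod v) ∈ translate t (A i)),
          if y ∈ translate t (A i) then 1 else 0 := by
      intro y
      rw [card_orb_filter h, ← card_filter, filter_filter]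
    simp_rw [h2]
    rw [sum_comm]
    have h3 : ∀ t ∈ (univ : Finset (ZMod v)).filter (fun t => (0 : ZMod v) ∈ translate t (A i)),
        (∑ y ∈ (univ : Finset (ZMod v)).erase 0, if y ∈ translate t (A i) then 1 else 0)
          = k - 1 := by
      intro t ht
      rw [mem_filter] at ht
      rw [← card_filter]
      have : (univ.erase 0).filter (fun y => y ∈ translate t (A i))
          = (translate t (A i)).erase 0 := by
        ext y; simp
      rw [this, card_erase_of_mem ht.2, card_translate, hk]
    rw [sum_congr rfl h3, sum_const, card_contains, hk, smul_eq_mul]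
  · exact Nat.zero_le _

end Pool.Agent.W2helper68.CD
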