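import Pool.Agent.W2helper68.CD.Moment
import Pool.Agent.W2helper68.CD.Basic

/-!
# A good random colouring
-/

set_option autoImplicit false

namespace Pool.Agent.W2helper68.CD

open Finset Pool.Agent.R117.Cyc

variable {v : ℕ} [NeZero v] {m : ℕ} [NeZero m]

/-- deviation bound for the number of translates of a set in a random colour class -/
lemma dev_orbit (A : Finset (ZMod v)) (P : Finset (Fin m)) (δ : ℝ) (hδ : 0 < δ) :
    (((univ : Finset (ZMod v → Fin m)).filter
      (fun f => δ ≤ |Zc (univ : Finset (ZMod v)) (fun t => translate t A) P f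
        - v * ((P.card : ℝ) / m) ^ A.card|)).card : ℝ)
      ≤ (m : ℝ) ^ v * ((A.card ^ 2 * v : ℕ) / δ ^ 2) := by
  classical
  have h := cheb (α := ZMod v) (m := m) (univ : Finset (ZMod v)) (fun t => translate t A) P A.card
    (fun t _ => card_translate t A) ((A.card ^ 2 * v : ℕ) : ℝ) ?_ δ hδ
  · rw [card_univ, ZMod.card] at h
    exact h
  · have h1 : ((univ : Finset (ZMod v)) ×ˢ (univ : Finset (ZMod v))).filter
        (fun p => ¬ Disjoint (translate p.1 A) (translate p.2 A))
        = (univ : Finset (ZMod v)).biUnion (fun t =>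
          ((univ : Finset (ZMod v)).filter
            (fun s => ¬ Disjoint (translate s A) (translate t A))).image (fun s => (s, t))) := by
      ext ⟨s, t⟩
      simp
    rw [h1]
    have h2 : (((univ : Finset (ZMod v)).biUnion (fun t =>
          ((univ : Finset (ZMod v)).filter
            (fun s => ¬ Disjoint (translate s A) (translate t A))).image (fun s => (s, t)))).card)
        ≤ A.card ^ 2 * v := by
      refine card_biUnion_le.trans ?_
      refine (sum_le_card_nsmul _ _ (A.card * A.card) (fun t _ => ?_)).trans ?_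
      · refine card_image_le.trans ((card_meets A (translate t A)).trans ?_)
        rw [card_translate]
      · rw [card_univ, ZMod.card, smul_eq_mul, sq, mul_comm]
    exact_mod_cast h2

open scoped Classical in
/-- the blocks (of full orbits) through `y` -/
noncomputable def Thr {ι : Type} [Fintype ι] (A : ι → Finset (ZMod v)) (y : ZMod v) :
    Finset (ι × ZMod v) :=
  (univ : Finset (ι × ZMod v)).filter (fun p => Full (A p.1) ∧ y ∈ translate p.2 (A p.1))

open scoped Classical in
lemma card_Thr {ι : Type} [Fintype ι] (A : ι → Finset (ZMod v)) (k : ℕ)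
    (hk : ∀ i, (A i).card = k) (y : ZMod v) :
    (Thr A y).card = ((univ : Finset ι).filter (fun i => Full (A i))).card * k := by
  have h1 : Thr A y = (((univ : Finset ι).filter (fun i => Full (A i))).sigma
      (fun i => (univ : Finset (ZMod v)).filter (fun t => y ∈ translate t (A i)))).image
      (fun p => (p.1, p.2)) := by
    ext ⟨i, t⟩
    simp [Thr]
  rw [h1, card_image_of_injective, card_sigma]
  · simp_rw [card_contains, hk]
    rw [sum_const, smul_eq_mul]
  · rintro ⟨i, t⟩ ⟨j, s⟩ h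
    simp only [Prod.mk.injEq] at h
    obtain ⟨rfl, rfl⟩ := h
    rfl

open scoped Classical in
lemma card_Thr_two {ι : Type} [Fintype ι] (A : ι → Finset (ZMod v)) (lam : ℕ)
    (hpair : ∀ x y : ZMod v, x ≠ y →
      ∑ i, ((orb (A i)).filter (fun C => x ∈ C ∧ y ∈ C)).card ≤ lam) (y z : ZMod v) (hyz : y ≠ z) :
    ((Thr A y).filter (fun p => z ∈ translate p.2 (A p.1))).card ≤ lam := by
  have h1 : (Thr A y).filter (fun p : ι × ZMod v => z ∈ translate p.2 (A p.1))
      = (((univ : Finset ι).filter (fun i => Full (A i))).sigma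
      (fun i => (univ : Finset (ZMod v)).filter
        (fun t => y ∈ translate t (A i) ∧ z ∈ translate t (A i)))).image
      (fun p => (p.1, p.2)) := by
    ext ⟨i, t⟩
    simp only [Thr, mem_filter, mem_univ, true_and, mem_image, mem_sigma, Sigma.exists,
      Prod.mk.injEq]
    constructor
    · rintro ⟨⟨a, b⟩, c⟩; exact ⟨i, t, ⟨a, b, c⟩, rfl, rfl⟩
    · rintro ⟨i', t', ⟨a, b, c⟩, rfl, rfl⟩; exact ⟨⟨a, b⟩, c⟩
  rw [h1, card_image_of_injective, card_sigma]
  · refine le_trans ?_ (hpair y z hyz)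
    rw [sum_filter]
    refine sum_le_sum (fun i _ => ?_)
    split_ifs with h
    · rw [card_orb_filter h]
    · exact Nat.zero_le _
  · rintro ⟨i, t⟩ ⟨j, s⟩ h
    simp only [Prod.mk.injEq] at h
    obtain ⟨rfl, rfl⟩ := h
    rfl

/-- deviation bound for the number of blocks through a point that avoid a random colour -/
lemma dev_point {ι : Type} [Fintype ι] (A : ι → Finset (ZMod v)) (k lam : ℕ)
    (hk : ∀ i, (A i).card = k)
    (hpair : ∀ x y : ZMod v, x ≠ y →
      ∑ i, ((orb (A i)).filter (fun C => x ∈ C ∧ y ∈ C)).card ≤ lam)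
    (P : Finset (Fin m)) (y : ZMod v) (δ : ℝ) (hδ : 0 < δ) :
    (((univ : Finset (ZMod v → Fin m)).filter
      (fun f => δ ≤ |Zc (Thr A y) (fun p => (translate p.2 (A p.1)).erase y) P f
        - (Thr A y).card * ((P.card : ℝ) / m) ^ (k - 1)|)).card : ℝ)
      ≤ (m : ℝ) ^ v * ((lam ^ 2 * v : ℕ) / δ ^ 2) := by
  classical
  have h := cheb (α := ZMod v) (m := m) (Thr A y) (fun p => (translate p.2 (A p.1)).erase y) P
    (k - 1) (fun p hp => by
      simp only [Thr, mem_filter, mem_univ, true_and] at hp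
      rw [card_erase_of_mem hp.2, card_translate, hk]) ((lam ^ 2 * v : ℕ) : ℝ) ?_ δ hδ
  · rw [ZMod.card] at h
    exact h
  · have h1 : ((Thr A y) ×ˢ (Thr A y)).filter
        (fun p => ¬ Disjoint ((translate p.1.2 (A p.1.1)).erase y)
          ((translate p.2.2 (A p.2.1)).erase y))
        ⊆ (Thr A y).biUnion (fun p =>
          ((translate p.2 (A p.1)).erase y).biUnion (fun z =>
            ((Thr A y).filter (fun p' => z ∈ translate p'.2 (A p'.1))).image (fun s => (p, s)))) := by
      rintro ⟨p, p'⟩ hp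
      simp only [mem_filter, mem_product] at hp
      obtain ⟨⟨hp1, hp2⟩, hd⟩ := hp
      rw [Finset.not_disjoint_iff] at hd
      obtain ⟨z, hz1, hz2⟩ := hd
      rw [mem_biUnion]
      refine ⟨p, hp1, ?_⟩
      rw [mem_biUnion]
      refine ⟨z, hz1, ?_⟩
      rw [mem_image]
      exact ⟨p', by rw [mem_filter]; exact ⟨hp2, mem_of_mem_erase hz2⟩, rfl⟩
    have h2 : (Thr A y).card * ((k - 1) * lam) ≤ lam ^ 2 * v := by
      rw [card_Thr A k hk]
      have := card_full_le A k lam hk hpair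
      calc _ = (((univ : Finset ι).filter (fun i => Full (A i))).card * (k * (k - 1))) * lam := by
            ring
        _ ≤ (lam * v) * lam := Nat.mul_le_mul_right _ this
        _ = lam ^ 2 * v := by ring
    have h3 := card_le_card h1
    refine le_trans (Nat.cast_le.2 (h3.trans ?_)) (Nat.cast_le.2 h2)
    refine card_biUnion_le.trans ((sum_le_card_nsmul _ _ ((k - 1) * lam) (fun p hp => ?_)).trans
      (le_of_eq (by rw [smul_eq_mul])))
    have hp' : y ∈ translate p.2 (A p.1) := by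
      simp only [Thr, mem_filter, mem_univ, true_and] at hp
      exact hp.2
    refine card_biUnion_le.trans ((sum_le_card_nsmul _ _ lam (fun z hz => ?_)).trans
      (le_of_eq (by rw [smul_eq_mul, card_erase_of_mem hp', card_translate, hk])))
    exact card_image_le.trans (card_Thr_two A lam hpair y z (Ne.symm (ne_of_mem_erase hz)))

/-- the constant bounding the number of bad orbits and bad points -/
noncomputable def Cst (k lam m : ℕ) (ε : ℝ) : ℝ :=
  4 * k ^ 2 * (m : ℝ) ^ (2 * k) + k ^ 2 / (ε ^ 2 * (((m - 1 : ℕ) : ℝ) / m) ^ (2 * k))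
    + lam ^ 2 / ε ^ 2

open scoped Classical in
lemma exists_colouring (k lam : ℕ) (hk2 : 2 ≤ k) (hlk : lam ≤ k) (hm : 2 ≤ m) (ε : ℝ) (hε : 0 < ε)
    {ι : Type} [Fintype ι] (A : ι → Finset (ZMod v))
    (hk : ∀ i, (A i).card = k)
    (hpair : ∀ x y : ZMod v, x ≠ y →
      ∑ i, ((orb (A i)).filter (fun C => x ∈ C ∧ y ∈ C)).card ≤ lam) :
    ∃ (f : ZMod v → Fin m) (Bad : Finset ι) (Y : Finset (ZMod v)),
      (Bad.card : ℝ) + Y.card ≤ Cst k lam m ε ∧
      (∀ i, Full (A i) → i ∉ Bad →
        (v : ℝ) / (2 * m ^ k) ≤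
          (((univ : Finset (ZMod v)).filter (fun t => ∀ x ∈ translate t (A i), f x = 0)).card : ℝ)
        ∧ (1 - ε) * (((m - 1 : ℕ) : ℝ) / m) ^ k * v ≤
          (((univ : Finset (ZMod v)).filter (fun t => ∀ x ∈ translate t (A i), f x ≠ 0)).card : ℝ)) ∧
      (∀ y ∉ Y, (((Thr A y).filter
          (fun p => ∀ x ∈ translate p.2 (A p.1), x ≠ y → f x ≠ 0)).card : ℝ)
        ≤ (((m - 1 : ℕ) : ℝ) / m) ^ (k - 1) * (Thr A y).card + ε * v) := by
  have hv : (0 : ℝ) < v := by exact_mod_cast NeZero.pos v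
  have hmp : (0 : ℝ) < m := by exact_mod_cast NeZero.pos m
  have hm1 : (0 : ℝ) < ((m - 1 : ℕ) : ℝ) := by
    have : 0 < m - 1 := by omega
    exact_mod_cast this
  set q : ℝ := ((m - 1 : ℕ) : ℝ) / m with hq
  have hqp : 0 < q := by positivity
  set P0 : Finset (Fin m) := {0} with hP0
  set P1 : Finset (Fin m) := univ.erase 0 with hP1
  have hP0c : P0.card = 1 := by simp [hP0]
  have hP1c : P1.card = m - 1 := by
    rw [hP1, card_erase_of_mem (mem_univ _), card_univ, Fintype.card_fin]
  set Fu : Finset ι := (univ : Finset ι).filter (fun i => Full (A i)) with hFu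
  have hFuv : (Fu.card : ℝ) ≤ v := by
    have h1 := card_full_le A k lam hk hpair
    rw [← hFu] at h1
    have h2 : k ≤ k * (k - 1) := Nat.le_mul_of_pos_right k (by omega)
    have h3 : Fu.card * k ≤ k * v :=
      (Nat.mul_le_mul_left _ h2).trans (h1.trans (Nat.mul_le_mul_right _ hlk))
    have h4 : k * Fu.card ≤ k * v := by rw [mul_comm k Fu.card]; exact h3
    exact_mod_cast Nat.le_of_mul_le_mul_left h4 (by omega)
  -- the three kinds of bad events
  set δ0 : ℝ := v / (2 * m ^ k) with hδ0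
  set δ1 : ℝ := ε * q ^ k * v with hδ1
  set δ2 : ℝ := ε * v with hδ2
  have hδ0p : 0 < δ0 := by positivity
  have hδ1p : 0 < δ1 := by positivity
  have hδ2p : 0 < δ2 := by positivity
  let E0 : (ZMod v → Fin m) → ι → Prop := fun f i =>
    δ0 ≤ |Zc (univ : Finset (ZMod v)) (fun t => translate t (A i)) P0 f
        - v * ((P0.card : ℝ) / m) ^ (A i).card|
  let E1 : (ZMod v → Fin m) → ι → Prop := fun f i =>
    δ1 ≤ |Zc (univ : Finset (ZMod v)) (fun t => translate t (A i)) P1 f
        - v * ((P1.card : ℝ) / m) ^ (A i).card|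
  let E2 : (ZMod v → Fin m) → ZMod v → Prop := fun f y =>
    δ2 ≤ |Zc (Thr A y) (fun p => (translate p.2 (A p.1)).erase y) P1 f
        - (Thr A y).card * ((P1.card : ℝ) / m) ^ (k - 1)|
  let N : (ZMod v → Fin m) → ℝ := fun f =>
    ((Fu.filter (E0 f)).card : ℝ) + ((Fu.filter (E1 f)).card : ℝ)
      + ((univ.filter (E2 f)).card : ℝ)
  have hsum : ∑ f, N f ≤ ∑ _f : ZMod v → Fin m, Cst k lam m ε := by
    have e0 : ∑ f : ZMod v → Fin m, ((Fu.filter (E0 f)).card : ℝ)
        ≤ (m : ℝ) ^ v * (4 * k ^ 2 * (m : ℝ) ^ (2 * k)) := by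
      have h1 : ∑ f : ZMod v → Fin m, ((Fu.filter (E0 f)).card : ℝ)
          = ∑ i ∈ Fu, (((univ : Finset (ZMod v → Fin m)).filter (fun f => E0 f i)).card : ℝ) := by
        simp_rw [card_filter]
        push_cast
        rw [sum_comm]
      rw [h1]
      have h2 : ∀ i ∈ Fu, (((univ : Finset (ZMod v → Fin m)).filter (fun f => E0 f i)).card : ℝ)
          ≤ (m : ℝ) ^ v * ((k ^ 2 * v : ℕ) / δ0 ^ 2) := by
        intro i _
        have := dev_orbit (A i) P0 δ0 hδ0p
        rw [hk i] at this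
        convert this using 5
        simp only [E0, hk i]
      refine (sum_le_card_nsmul _ _ _ h2).trans ?_
      rw [nsmul_eq_mul]
      have h3 : ((k ^ 2 * v : ℕ) : ℝ) / δ0 ^ 2 = 4 * k ^ 2 * (m : ℝ) ^ (2 * k) / v := by
        rw [hδ0]; push_cast
        rw [pow_mul' (m : ℝ) 2 k]
        field_simp
        ring
      rw [h3]
      have h4 : (Fu.card : ℝ) * ((m : ℝ) ^ v * (4 * k ^ 2 * (m : ℝ) ^ (2 * k) / v))
          = (Fu.card / v) * ((m : ℝ) ^ v * (4 * k ^ 2 * (m : ℝ) ^ (2 * k))) := by ring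
      rw [h4]
      have h5 : (Fu.card : ℝ) / v ≤ 1 := by rw [div_le_one hv]; exact hFuv
      have h6 : 0 ≤ (m : ℝ) ^ v * (4 * k ^ 2 * (m : ℝ) ^ (2 * k)) := by positivity
      nlinarith
    have e1 : ∑ f : ZMod v → Fin m, ((Fu.filter (E1 f)).card : ℝ)
        ≤ (m : ℝ) ^ v * (k ^ 2 / (ε ^ 2 * q ^ (2 * k))) := by
      have h1 : ∑ f : ZMod v → Fin m, ((Fu.filter (E1 f)).card : ℝ)
          = ∑ i ∈ Fu, (((univ : Finset (ZMod v → Fin m)).filter (fun f => E1 f i)).card : ℝ) := by
        simp_rw [card_filter]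
        push_cast
        rw [sum_comm]
      rw [h1]
      have h2 : ∀ i ∈ Fu, (((univ : Finset (ZMod v → Fin m)).filter (fun f => E1 f i)).card : ℝ)
          ≤ (m : ℝ) ^ v * ((k ^ 2 * v : ℕ) / δ1 ^ 2) := by
        intro i _
        have := dev_orbit (A i) P1 δ1 hδ1p
        rw [hk i] at this
        convert this using 5
        simp only [E1, hk i]
      refine (sum_le_card_nsmul _ _ _ h2).trans ?_
      rw [nsmul_eq_mul]
      have h3 : ((k ^ 2 * v : ℕ) : ℝ) / δ1 ^ 2 = k ^ 2 / (ε ^ 2 * q ^ (2 * k)) / v := by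
        rw [hδ1]; push_cast
        rw [pow_mul' q 2 k]
        field_simp
      rw [h3]
      have h4 : (Fu.card : ℝ) * ((m : ℝ) ^ v * (k ^ 2 / (ε ^ 2 * q ^ (2 * k)) / v))
          = (Fu.card / v) * ((m : ℝ) ^ v * (k ^ 2 / (ε ^ 2 * q ^ (2 * k)))) := by ring
      rw [h4]
      have h5 : (Fu.card : ℝ) / v ≤ 1 := by rw [div_le_one hv]; exact hFuv
      have h6 : 0 ≤ (m : ℝ) ^ v * (k ^ 2 / (ε ^ 2 * q ^ (2 * k))) := by positivity
      nlinarith
    have e2 : ∑ f : ZMod v → Fin m, (((univ : Finset (ZMod v)).filter (E2 f)).card : ℝ)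
        ≤ (m : ℝ) ^ v * (lam ^ 2 / ε ^ 2) := by
      have h1 : ∑ f : ZMod v → Fin m, (((univ : Finset (ZMod v)).filter (E2 f)).card : ℝ)
          = ∑ y : ZMod v,
            (((univ : Finset (ZMod v → Fin m)).filter (fun f => E2 f y)).card : ℝ) := by
        simp_rw [card_filter]
        push_cast
        rw [sum_comm]
      rw [h1]
      have h2 : ∀ y ∈ (univ : Finset (ZMod v)),
          (((univ : Finset (ZMod v → Fin m)).filter (fun f => E2 f y)).card : ℝ)
          ≤ (m : ℝ) ^ v * ((lam ^ 2 * v : ℕ) / δ2 ^ 2) := by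
        intro y _
        exact dev_point A k lam hk hpair P1 y δ2 hδ2p
      refine (sum_le_card_nsmul _ _ _ h2).trans ?_
      rw [nsmul_eq_mul, card_univ, ZMod.card]
      have h3 : ((lam ^ 2 * v : ℕ) : ℝ) / δ2 ^ 2 = lam ^ 2 / ε ^ 2 / v := by
        rw [hδ2]; push_cast
        field_simp
      rw [h3]
      apply le_of_eq
      field_simp
    have e3 : ∑ f, N f = ∑ f : ZMod v → Fin m, ((Fu.filter (E0 f)).card : ℝ)
        + ∑ f : ZMod v → Fin m, ((Fu.filter (E1 f)).card : ℝ)
        + ∑ f : ZMod v → Fin m, (((univ : Finset (ZMod v)).filter (E2 f)).card : ℝ) := by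
      simp only [N]
      rw [sum_add_distrib, sum_add_distrib]
    rw [e3, sum_const, nsmul_eq_mul, card_univ, Fintype.card_fun, Fintype.card_fin, ZMod.card]
    push_cast
    unfold Cst
    rw [← hq]
    calc _ ≤ (m : ℝ) ^ v * (4 * k ^ 2 * (m : ℝ) ^ (2 * k))
          + (m : ℝ) ^ v * (k ^ 2 / (ε ^ 2 * q ^ (2 * k)))
          + (m : ℝ) ^ v * (lam ^ 2 / ε ^ 2) := add_le_add (add_le_add e0 e1) e2
      _ = _ := by ring
  obtain ⟨f, -, hf⟩ := exists_le_of_sum_le (s := (univ : Finset (ZMod v → Fin m))) univ_nonempty hsum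
  refine ⟨f, Fu.filter (fun i => E0 f i ∨ E1 f i), univ.filter (E2 f), ?_, ?_, ?_⟩
  · have h1 : ((Fu.filter (fun i => E0 f i ∨ E1 f i)).card : ℝ)
        ≤ (Fu.filter (E0 f)).card + (Fu.filter (E1 f)).card := by
      rw [filter_or]
      exact_mod_cast card_union_le _ _
    simp only [N] at hf
    linarith
  · intro i hi hib
    have hiF : i ∈ Fu := by rw [hFu, mem_filter]; exact ⟨mem_univ _, hi⟩
    have hn0 : ¬ E0 f i := fun h => hib (by rw [mem_filter]; exact ⟨hiF, Or.inl h⟩)
    have hn1 : ¬ E1 f i := fun h => hib (by rw [mem_filter]; exact ⟨hiF, Or.inr h⟩)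
    simp only [E0, E1, not_le, hk i] at hn0 hn1
    have z0 : Zc (univ : Finset (ZMod v)) (fun t => translate t (A i)) P0 f
        = (((univ : Finset (ZMod v)).filter (fun t => ∀ x ∈ translate t (A i), f x = 0)).card : ℝ) := by
      unfold Zc; congr 2; ext t; simp [hP0]
    have z1 : Zc (univ : Finset (ZMod v)) (fun t => translate t (A i)) P1 f
        = (((univ : Finset (ZMod v)).filter (fun t => ∀ x ∈ translate t (A i), f x ≠ 0)).card : ℝ) := by
      unfold Zc; congr 2; ext t; simp [hP1]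
    rw [z0, hP0c] at hn0
    rw [z1, hP1c, ← hq] at hn1
    rw [abs_lt] at hn0 hn1
    constructor
    · have e : (v : ℝ) * (((1 : ℕ) : ℝ) / m) ^ k = 2 * δ0 := by
        rw [hδ0]; push_cast; rw [div_pow, one_pow]; field_simp
      rw [e] at hn0
      linarith [hn0.1]
    · have e : (1 - ε) * q ^ k * v = v * q ^ k - δ1 := by rw [hδ1]; ring
      rw [e]; linarith [hn1.1]
  · intro y hy
    have hn2 : ¬ E2 f y := fun h => hy (by rw [mem_filter]; exact ⟨mem_univ _, h⟩)
    simp only [E2, not_le] at hn2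
    have z2 : Zc (Thr A y) (fun p => (translate p.2 (A p.1)).erase y) P1 f
        = (((Thr A y).filter
          (fun p => ∀ x ∈ translate p.2 (A p.1), x ≠ y → f x ≠ 0)).card : ℝ) := by
      unfold Zc; congr 2; ext p
      simp only [hP1, mem_filter, mem_erase, mem_univ, and_true, and_imp]
      constructor
      · rintro ⟨a, b⟩; exact ⟨a, fun x hx hxy => b x hxy hx⟩
      · rintro ⟨a, b⟩; exact ⟨a, fun x hxy hx => b x hx hxy⟩
    rw [z2, hP1c, ← hq, abs_lt] at hn2
    have := hn2.2
    rw [hδ2] at this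
    linarith

end Pool.Agent.W2helper68.CD
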