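import Pool.Agent.W2helper68.CD.Colour
import Pool.Agent.TH437.SP.Nib

/-!
# Disjoint representatives of the orbits when `k ≥ lam + 2`
-/

set_option autoImplicit false

namespace Pool.Agent.W2helper68.CD

open Finset Pool.Agent.R117.Cyc

lemma sum_filter_le_card {β : Type} (s : Finset β) (p : β → Prop) [DecidablePred p] (w : β → ℝ)
    (B : Finset β) (c : ℝ) (hc : 0 ≤ c) (hw : ∀ b ∈ s, p b → w b ≤ c)
    (hB : ∀ b ∈ s, p b → b ∉ B → w b ≤ 0) :
    ∑ b ∈ s.filter p, w b ≤ B.card * c := by
  classical
  calc ∑ b ∈ s.filter p, w b ≤ ∑ b ∈ s.filter p, if b ∈ B then c else 0 := by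
        refine sum_le_sum (fun b hb => ?_)
        rw [mem_filter] at hb
        split_ifs with h
        · exact hw b hb.1 hb.2
        · exact hB b hb.1 hb.2 h
    _ = ((s.filter p).filter (fun b => b ∈ B)).card * c := by
        rw [← sum_filter, sum_const, nsmul_eq_mul]
    _ ≤ B.card * c := by
        refine mul_le_mul_of_nonneg_right (Nat.cast_le.2 (card_le_card ?_)) hc
        intro b hb
        rw [mem_filter] at hb
        exact hb.2

set_option maxHeartbeats 1000000 in
open scoped Classical in
/-- One step: everything after the constants have been chosen. -/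
lemma step (k lam m : ℕ) (hk2 : 2 ≤ k) (hlk : lam ≤ k) (hm : 2 ≤ m) (ε θ κ : ℝ) (hε : 0 < ε)
    (hε2 : ε < 1 / 2) (hθ : 0 < θ) (hθ1 : θ * (8 * k ^ 2 * m ^ k) ≤ 1)
    (hload : (((m - 1 : ℕ) : ℝ) / m) ^ (k - 1) * (lam / ((k - 1 : ℕ) : ℝ)) + ε
      ≤ (1 - 2 * ε) * (((m - 1 : ℕ) : ℝ) / m) ^ k)
    (hκ : 0 < κ)
    (hnib : ∀ (ι α : Type) [Fintype ι] [DecidableEq ι] [DecidableEq α]
      (A : ι → Finset α) (w : ι → ℝ),
      (∀ e, 0 ≤ w e) → (∀ e, (A e).Nonempty) → (∀ e, (A e).card ≤ k + 1) →
      (∀ v, ∑ e ∈ univ.filter (fun e => v ∈ A e), w e ≤ 1) →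
      (∀ u v, u ≠ v → ∑ e ∈ univ.filter (fun e => u ∈ A e ∧ v ∈ A e), w e ≤ κ) →
      (∀ e, w e ≤ κ) →
      ∃ M : Finset ι, (∀ e ∈ M, ∀ f ∈ M, e ≠ f → Disjoint (A e) (A f)) ∧ (∀ e ∈ M, 0 < w e) ∧
        (1 - θ) * ∑ e, w e ≤ (M.card : ℝ))
    (C0 : ℕ) (hC0 : Cst k lam m ε + k * lam ≤ C0)
    (v : ℕ) [NeZero v] (hv1 : k ^ 2 * C0 < v)
    (hv2 : (k * ((k + 1) * C0) : ℝ) ≤ ε * (((m - 1 : ℕ) : ℝ) / m) ^ k * v)
    (hv3 : ((lam + k : ℕ) : ℝ) * (1 / ((1 - 2 * ε) * (((m - 1 : ℕ) : ℝ) / m) ^ k * v)) ≤ κ)
    (hv4 : (k * (k * C0) : ℝ) ≤ v / (8 * m ^ k))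
    (ι : Type) [Fintype ι] (A : ι → Finset (ZMod v))
    (hk : ∀ i, (A i).card = k)
    (hpair : ∀ x y : ZMod v, x ≠ y →
      ∑ i, ((orb (A i)).filter (fun C => x ∈ C ∧ y ∈ C)).card ≤ lam) :
    ∃ t : ι → ZMod v, ∀ i j, i ≠ j →
      Disjoint (translate (t i) (A i)) (translate (t j) (A j)) := by
  have : NeZero m := ⟨by omega⟩
  have hv : (0 : ℝ) < v := by exact_mod_cast NeZero.pos v
  have hmp : (0 : ℝ) < m := by exact_mod_cast NeZero.pos m
  have hm1 : (0 : ℝ) < ((m - 1 : ℕ) : ℝ) := by
    have : 0 < m - 1 := by omega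
    exact_mod_cast this
  have hkm1 : (0 : ℝ) < ((k - 1 : ℕ) : ℝ) := by
    have : 0 < k - 1 := by omega
    exact_mod_cast this
  have hkp : (0 : ℝ) < k := by
    have : 0 < k := by omega
    exact_mod_cast this
  obtain ⟨f, Bad, Y, hBY, hgood, hYp⟩ := exists_colouring (m := m) k lam hk2 hlk hm ε hε A hk hpair
  set q : ℝ := ((m - 1 : ℕ) : ℝ) / m with hq
  have hqp : 0 < q := by positivity
  -- the short and the bad orbits
  set Sh : Finset ι := (univ : Finset ι).filter (fun i => ¬ Full (A i)) with hSh
  have hShc : Sh.card ≤ k * lam := card_short_le A k lam (by omega) hk hpair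
  set J : Finset ι := Sh ∪ Bad with hJ
  have hcard : (J.card : ℝ) + Y.card ≤ C0 := by
    have h1 : (J.card : ℝ) ≤ Sh.card + Bad.card := by exact_mod_cast card_union_le _ _
    have h2 : (Sh.card : ℝ) ≤ k * lam := by exact_mod_cast hShc
    linarith
  have hJc : J.card ≤ C0 := by
    have : (J.card : ℝ) ≤ C0 := by
      have : (0 : ℝ) ≤ Y.card := by positivity
      linarith
    exact_mod_cast this
  have hYc : Y.card ≤ C0 := by
    have : (Y.card : ℝ) ≤ C0 := by
      have : (0 : ℝ) ≤ J.card := by positivity
      linarith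
    exact_mod_cast this
  obtain ⟨t1, -, -, ht1⟩ := greedy A k hk (fun _ => univ) ∅ J (by
    intro j _
    rw [card_univ, ZMod.card, card_empty, zero_add]
    calc k * (k * J.card) = k ^ 2 * J.card := by ring
      _ ≤ k ^ 2 * C0 := Nat.mul_le_mul_left _ hJc
      _ < v := hv1)
  set U0 : Finset (ZMod v) := J.biUnion (fun i => translate (t1 i) (A i)) with hU0
  have hU0c : U0.card ≤ k * C0 := by
    refine card_biUnion_le.trans ?_
    simp_rw [card_translate, hk]
    rw [sum_const, smul_eq_mul, mul_comm]
    exact Nat.mul_le_mul_left _ hJc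
  set F0 : Finset (ZMod v) := U0 ∪ Y with hF0
  have hF0c : F0.card ≤ (k + 1) * C0 := by
    refine (card_union_le _ _).trans ?_
    calc _ ≤ k * C0 + C0 := Nat.add_le_add hU0c hYc
      _ = (k + 1) * C0 := by ring
  -- good orbits
  set G : Finset ι := (univ : Finset ι).filter (fun i => Full (A i) ∧ i ∉ Bad) with hG
  have hGJ : ∀ i, i ∉ J → i ∈ G := by
    intro i hi
    rw [hJ, mem_union, not_or, hSh, mem_filter] at hi
    rw [hG, mem_filter]
    refine ⟨mem_univ _, ?_, hi.2⟩
    by_contra h
    exact hi.1 ⟨mem_univ _, h⟩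
  have hGv : (G.card : ℝ) ≤ v := by
    have h1 := card_full_le A k lam hk hpair
    have h2 : k ≤ k * (k - 1) := Nat.le_mul_of_pos_right k (by omega)
    have h3 : ((univ : Finset ι).filter (fun i => Full (A i))).card * k ≤ k * v :=
      (Nat.mul_le_mul_left _ h2).trans (h1.trans (Nat.mul_le_mul_right _ hlk))
    have h4 : k * ((univ : Finset ι).filter (fun i => Full (A i))).card ≤ k * v := by
      rw [mul_comm k _]; exact h3
    have h5 := Nat.le_of_mul_le_mul_left h4 (by omega)
    have h6 : G.card ≤ ((univ : Finset ι).filter (fun i => Full (A i))).card := by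
      refine card_le_card (fun i hi => ?_)
      rw [hG, mem_filter] at hi
      rw [mem_filter]; exact ⟨hi.1, hi.2.1⟩
    exact_mod_cast h6.trans h5
  -- available translations
  let Tb : ι → Finset (ZMod v) := fun i => (univ : Finset (ZMod v)).filter
    (fun t => (∀ x ∈ translate t (A i), f x ≠ 0) ∧ Disjoint (translate t (A i)) F0)
  set wm : ℝ := 1 / ((1 - 2 * ε) * q ^ k * v) with hwm
  have hden : 0 < (1 - 2 * ε) * q ^ k * v := by
    have : 0 < 1 - 2 * ε := by linarith
    positivity
  have hwmp : 0 < wm := by positivity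
  have hTb : ∀ i ∈ G, (1 - 2 * ε) * q ^ k * v ≤ ((Tb i).card : ℝ) := by
    intro i hi
    rw [hG, mem_filter] at hi
    have h1 := (hgood i hi.2.1 hi.2.2).2
    have h2 : ((univ : Finset (ZMod v)).filter (fun t => ∀ x ∈ translate t (A i), f x ≠ 0))
        ⊆ Tb i ∪ (univ : Finset (ZMod v)).filter (fun t => ¬ Disjoint (translate t (A i)) F0) := by
      intro t ht
      rw [mem_filter] at ht
      rw [mem_union]
      by_cases hd : Disjoint (translate t (A i)) F0
      · left; simp only [Tb, mem_filter]; exact ⟨mem_univ _, ht.2, hd⟩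
      · right; rw [mem_filter]; exact ⟨mem_univ _, hd⟩
    have h3 := (card_le_card h2).trans (card_union_le _ _)
    have h4 := card_meets (A i) F0
    rw [hk] at h4
    have h5 : k * F0.card ≤ k * ((k + 1) * C0) := Nat.mul_le_mul_left _ hF0c
    have h6 : ((((univ : Finset (ZMod v)).filter
        (fun t => ∀ x ∈ translate t (A i), f x ≠ 0)).card : ℕ) : ℝ)
        ≤ (Tb i).card + k * ((k + 1) * C0) := by
      exact_mod_cast h3.trans (Nat.add_le_add_left (h4.trans h5) _)
    have h7 : (1 - 2 * ε) * q ^ k * v = (1 - ε) * q ^ k * v - ε * q ^ k * v := by ring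
    rw [h7]
    linarith
  have hTbpos : ∀ i ∈ G, (0 : ℝ) < (Tb i).card := fun i hi => lt_of_lt_of_le hden (hTb i hi)
  -- the weights
  let W : ι × ZMod v → ℝ := fun p => if p.1 ∈ G ∧ p.2 ∈ Tb p.1 then 1 / ((Tb p.1).card : ℝ) else 0
  have hWnn : ∀ p, 0 ≤ W p := by
    intro p; simp only [W]; split_ifs <;> positivity
  have hWle : ∀ p, W p ≤ wm := by
    intro p
    simp only [W]
    split_ifs with h
    · rw [hwm]
      exact one_div_le_one_div_of_le hden (hTb _ h.1)
    · exact hwmp.le
  have hWpos : ∀ p, 0 < W p → p.1 ∈ G ∧ p.2 ∈ Tb p.1 := by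
    intro p hp
    by_contra h
    simp only [W, if_neg h] at hp
    exact lt_irrefl _ hp
  have hsumi : ∀ i ∈ G, ∑ t : ZMod v, W (i, t) = 1 := by
    intro i hi
    have h1 : ∑ t : ZMod v, W (i, t) = ∑ t ∈ Tb i, 1 / ((Tb i).card : ℝ) := by
      rw [← sum_filter_add_sum_filter_not univ (fun t => t ∈ Tb i)]
      have h2 : ∑ t ∈ (univ : Finset (ZMod v)).filter (fun t => ¬ t ∈ Tb i), W (i, t) = 0 := by
        refine sum_eq_zero (fun t ht => ?_)
        rw [mem_filter] at ht
        simp only [W]
        rw [if_neg (fun h => ht.2 h.2)]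
      rw [h2, add_zero]
      have h3 : (univ : Finset (ZMod v)).filter (fun t => t ∈ Tb i) = Tb i := by ext t; simp
      rw [h3]
      refine sum_congr rfl (fun t ht => ?_)
      simp only [W]
      rw [if_pos ⟨hi, ht⟩]
    rw [h1, sum_const, nsmul_eq_mul, mul_one_div, div_self (hTbpos i hi).ne']
  have hsumi0 : ∀ i, i ∉ G → ∀ t : ZMod v, W (i, t) = 0 := by
    intro i hi t
    simp only [W]
    rw [if_neg (fun h => hi h.1)]
  have htot : ∑ p, W p = G.card := by
    rw [Fintype.sum_prod_type]
    rw [← sum_filter_add_sum_filter_not univ (fun i => i ∈ G)]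
    have h2 : ∑ i ∈ (univ : Finset ι).filter (fun i => ¬ i ∈ G), ∑ t : ZMod v, W (i, t) = 0 := by
      refine sum_eq_zero (fun i hi => ?_)
      rw [mem_filter] at hi
      exact sum_eq_zero (fun t _ => hsumi0 i hi.2 t)
    rw [h2, add_zero]
    have h3 : (univ : Finset ι).filter (fun i => i ∈ G) = G := by ext t; simp
    rw [h3, sum_congr rfl hsumi, sum_const, nsmul_eq_mul, mul_one]
  -- apply the nibble
  obtain ⟨M, hM1, hM2, hM3⟩ := hnib (ι × ZMod v) (ZMod v ⊕ ι)
    (fun p => (translate p.2 (A p.1)).disjSum {p.1}) W hWnn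
    (fun p => ⟨Sum.inr p.1, by simp⟩)
    (fun p => by rw [card_disjSum, card_translate, hk, card_singleton])
    (by
      rintro (y | i)
      · -- load at a point
        by_cases hy : y ∈ Y
        · have : ∑ p ∈ (univ : Finset (ι × ZMod v)).filter
              (fun p => (Sum.inl y : ZMod v ⊕ ι) ∈ (translate p.2 (A p.1)).disjSum {p.1}), W p
              = 0 := by
            refine sum_eq_zero (fun p hp => ?_)
            rw [mem_filter] at hp
            have hyp : y ∈ translate p.2 (A p.1) := by simpa using hp.2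
            by_contra hne
            have hpos : 0 < W p := lt_of_le_of_ne (hWnn p) (Ne.symm hne)
            have h1 := (hWpos p hpos).2
            simp only [Tb, mem_filter] at h1
            exact disjoint_left.1 h1.2.2 hyp (mem_union_right _ hy)
          rw [this]; exact zero_le_one
        · have h1 := sum_filter_le_card (univ : Finset (ι × ZMod v))
            (fun p => (Sum.inl y : ZMod v ⊕ ι) ∈ (translate p.2 (A p.1)).disjSum {p.1}) W
            ((Thr A y).filter (fun p => ∀ x ∈ translate p.2 (A p.1), x ≠ y → f x ≠ 0)) wm hwmp.le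
            (fun p _ _ => hWle p) (by
              intro p _ hp hpn
              have hyp : y ∈ translate p.2 (A p.1) := by simpa using hp
              by_contra hne
              push Not at hne
              have h1 := hWpos p hne
              apply hpn
              rw [mem_filter]
              refine ⟨?_, ?_⟩
              · simp only [Thr, mem_filter, mem_univ, true_and]
                have h2 := h1.1
                rw [hG, mem_filter] at h2
                exact ⟨h2.2.1, hyp⟩
              · intro x hx _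
                have h2 := h1.2
                simp only [Tb, mem_filter] at h2
                exact h2.2.1 x hx)
          refine h1.trans ?_
          have h2 := hYp y hy
          have h3 : ((Thr A y).card : ℝ) ≤ lam * v / ((k - 1 : ℕ) : ℝ) := by
            rw [card_Thr A k hk, le_div_iff₀ hkm1]
            have := card_full_le A k lam hk hpair
            have h4 : ((univ : Finset ι).filter (fun i => Full (A i))).card * k * (k - 1)
                ≤ lam * v := by rw [mul_assoc]; exact this
            exact_mod_cast h4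
          have h5 : (((Thr A y).filter
              (fun p => ∀ x ∈ translate p.2 (A p.1), x ≠ y → f x ≠ 0)).card : ℝ)
              ≤ ((1 - 2 * ε) * q ^ k) * v := by
            refine h2.trans ?_
            calc q ^ (k - 1) * ((Thr A y).card : ℝ) + ε * v
                ≤ q ^ (k - 1) * (lam * v / ((k - 1 : ℕ) : ℝ)) + ε * v := by
                  gcongr
              _ = (q ^ (k - 1) * (lam / ((k - 1 : ℕ) : ℝ)) + ε) * v := by ring
              _ ≤ _ := mul_le_mul_of_nonneg_right hload hv.le
          rw [hwm, mul_one_div, div_le_one hden]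
          exact h5
      · -- load at an orbit
        have h1 : ∑ p ∈ (univ : Finset (ι × ZMod v)).filter
            (fun p => (Sum.inr i : ZMod v ⊕ ι) ∈ (translate p.2 (A p.1)).disjSum {p.1}), W p
            = ∑ t : ZMod v, W (i, t) := by
          rw [sum_filter, Fintype.sum_prod_type, sum_comm]
          refine sum_congr rfl (fun t _ => ?_)
          rw [sum_eq_single i]
          · simp
          · intro j _ hj
            rw [if_neg]
            simp only [inr_mem_disjSum, mem_singleton]
            exact fun h => hj h.symm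
          · intro h; exact absurd (mem_univ _) h
        rw [h1]
        by_cases hi : i ∈ G
        · rw [hsumi i hi]
        · rw [sum_eq_zero (fun t _ => hsumi0 i hi t)]; exact zero_le_one)
    (by
      have hκ1 : (lam : ℝ) * wm ≤ κ := by
        refine le_trans ?_ hv3
        refine mul_le_mul_of_nonneg_right ?_ hwmp.le
        push_cast; linarith
      have hκ2 : (k : ℝ) * wm ≤ κ := by
        refine le_trans ?_ hv3
        refine mul_le_mul_of_nonneg_right ?_ hwmp.le
        push_cast
        have : (0 : ℝ) ≤ lam := by positivity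
        linarith
      have key : ∀ (y : ZMod v) (i : ι), ∑ p ∈ (univ : Finset (ι × ZMod v)).filter
            (fun p => (Sum.inl y : ZMod v ⊕ ι) ∈ (translate p.2 (A p.1)).disjSum {p.1} ∧
              (Sum.inr i : ZMod v ⊕ ι) ∈ (translate p.2 (A p.1)).disjSum {p.1}), W p ≤ κ := by
        intro y i
        refine (sum_filter_le_card (univ : Finset (ι × ZMod v)) _ W
          (((univ : Finset (ZMod v)).filter (fun t => y ∈ translate t (A i))).image
            (fun t => (i, t))) wm hwmp.le (fun p _ _ => hWle p) ?_).trans ?_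
        · rintro ⟨j, t⟩ _ ⟨hp1, hp2⟩ hpn
          exfalso
          simp only [inr_mem_disjSum, mem_singleton] at hp2
          simp only [inl_mem_disjSum] at hp1
          subst hp2
          apply hpn
          rw [mem_image]
          exact ⟨t, by simp [hp1], rfl⟩
        · refine le_trans (mul_le_mul_of_nonneg_right ?_ hwmp.le) hκ2
          have h1 : (((univ : Finset (ZMod v)).filter (fun t => y ∈ translate t (A i))).image
            (fun t => (i, t))).card ≤ k := by
            refine card_image_le.trans ?_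
            rw [card_contains, hk]
          exact_mod_cast h1
      rintro (y | i) (z | j) hne
      · have hyz : y ≠ z := fun h => hne (by rw [h])
        refine (sum_filter_le_card (univ : Finset (ι × ZMod v)) _ W
          ((Thr A y).filter (fun p : ι × ZMod v => z ∈ translate p.2 (A p.1))) wm hwmp.le
          (fun p _ _ => hWle p) ?_).trans ?_
        · rintro p _ ⟨hp1, hp2⟩ hpn
          simp only [inl_mem_disjSum] at hp1 hp2
          by_contra hne'
          push Not at hne'
          have h1 := hWpos p hne'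
          apply hpn
          rw [mem_filter]
          refine ⟨?_, hp2⟩
          simp only [Thr, mem_filter, mem_univ, true_and]
          have h2 := h1.1
          rw [hG, mem_filter] at h2
          exact ⟨h2.2.1, hp1⟩
        · refine le_trans (mul_le_mul_of_nonneg_right ?_ hwmp.le) hκ1
          exact_mod_cast card_Thr_two A lam hpair y z hyz
      · exact key y j
      · have := key z i
        refine le_trans (le_of_eq ?_) this
        refine sum_congr ?_ (fun _ _ => rfl)
        ext p
        simp only [mem_filter, mem_univ, true_and]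
        exact and_comm
      · rw [sum_eq_zero]
        · exact hκ.le
        · rintro p hp
          exfalso
          simp only [mem_filter, mem_univ, true_and, inr_mem_disjSum, mem_singleton] at hp
          exact hne (by rw [hp.1, hp.2]))
    (by
      intro p
      refine (hWle p).trans (le_trans ?_ hv3)
      have h1 : (1 : ℝ) ≤ ((lam + k : ℕ) : ℝ) := by
        have : 1 ≤ lam + k := by omega
        exact_mod_cast this
      nlinarith)
  -- matched orbits
  set Mi : Finset ι := M.image Prod.fst with hMi
  have hMinj : ∀ p ∈ M, ∀ p' ∈ M, p.1 = p'.1 → p = p' := by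
    intro p hp p' hp' h
    by_contra hne
    have := hM1 p hp p' hp' hne
    rw [disjoint_left] at this
    exact this (a := Sum.inr p.1) (by simp) (by simp [h])
  have hMicard : Mi.card = M.card := by
    rw [hMi, card_image_iff]
    intro p hp p' hp' h
    exact hMinj p hp p' hp' h
  have hMiG : Mi ⊆ G := by
    intro i hi
    rw [hMi, mem_image] at hi
    obtain ⟨p, hp, rfl⟩ := hi
    exact (hWpos p (hM2 p hp)).1
  set L : Finset ι := G \ Mi with hL
  have hLc : (L.card : ℝ) ≤ θ * v := by
    have h1 : L.card + Mi.card = G.card := by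
      rw [hL]; exact card_sdiff_add_card_eq_card hMiG
    rw [hMicard] at h1
    have h2 : (L.card : ℝ) + M.card = G.card := by exact_mod_cast h1
    rw [htot] at hM3
    have h3 : (L.card : ℝ) ≤ θ * G.card := by linarith
    exact h3.trans (mul_le_mul_of_nonneg_left hGv hθ.le)
  -- greedy inside the reserved colour
  obtain ⟨t2, ht2a, ht2b, ht2c⟩ := greedy A k hk
    (fun i => (univ : Finset (ZMod v)).filter (fun t => ∀ x ∈ translate t (A i), f x = 0)) U0 L (by
      intro i hi
      have hiG : i ∈ G := by rw [hL, mem_sdiff] at hi; exact hi.1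
      rw [hG, mem_filter] at hiG
      have h1 := (hgood i hiG.2.1 hiG.2.2).1
      have h2 : ((k * (U0.card + k * L.card) : ℕ) : ℝ) < ((((univ : Finset (ZMod v)).filter
          (fun t => ∀ x ∈ translate t (A i), f x = 0)).card : ℕ) : ℝ) := by
        refine lt_of_lt_of_le ?_ h1
        push_cast
        have h3 : (U0.card : ℝ) ≤ k * C0 := by exact_mod_cast hU0c
        have h4 : (k : ℝ) * (k * (θ * v)) ≤ v / (8 * m ^ k) := by
          rw [le_div_iff₀ (by positivity)]
          calc (k : ℝ) * (k * (θ * v)) * (8 * m ^ k) = (θ * (8 * k ^ 2 * m ^ k)) * v := by ring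
            _ ≤ 1 * v := mul_le_mul_of_nonneg_right hθ1 hv.le
            _ = v := one_mul _
        have h5 : (k : ℝ) * (U0.card + k * L.card) ≤ k * (k * C0) + k * (k * (θ * v)) := by
          have : (k : ℝ) * (U0.card + k * L.card) ≤ k * (k * C0 + k * (θ * v)) := by gcongr
          linarith
        have h6 : (v : ℝ) / (8 * m ^ k) + v / (8 * m ^ k) < v / (2 * m ^ k) := by
          rw [← add_div, div_lt_div_iff₀ (by positivity) (by positivity)]
          have e0 : (0 : ℝ) < v * m ^ k := by positivity
          have e1 : ((v : ℝ) + v) * (2 * m ^ k) = 4 * (v * m ^ k) := by ring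
          have e2 : (v : ℝ) * (8 * m ^ k) = 8 * (v * m ^ k) := by ring
          rw [e1, e2]
          linarith
        linarith
      exact_mod_cast h2)
  -- assemble
  have hex : ∀ i ∈ Mi, ∃ s : ZMod v, (i, s) ∈ M := by
    intro i hi
    rw [hMi, mem_image] at hi
    obtain ⟨⟨j, s⟩, hp, rfl⟩ := hi
    exact ⟨s, hp⟩
  choose! s hs using hex
  let T : ι → ZMod v := fun i => if i ∈ J then t1 i else if i ∈ Mi then s i else t2 i
  have hT1 : ∀ i ∈ J, T i = t1 i := fun i hi => by simp only [T]; rw [if_pos hi]
  have hT2 : ∀ i, i ∉ J → i ∈ Mi → T i = s i := fun i hi hi' => by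
    simp only [T]; rw [if_neg hi, if_pos hi']
  have hT3 : ∀ i, i ∉ J → i ∉ Mi → T i = t2 i := fun i hi hi' => by
    simp only [T]; rw [if_neg hi, if_neg hi']
  have hLmem : ∀ i, i ∉ J → i ∉ Mi → i ∈ L := fun i hi hi' => by
    rw [hL, mem_sdiff]; exact ⟨hGJ i hi, hi'⟩
  have d12 : ∀ i ∈ J, ∀ j, j ∉ J → j ∈ Mi →
      Disjoint (translate (T i) (A i)) (translate (T j) (A j)) := by
    intro i hi j hj hj'
    rw [hT1 i hi, hT2 j hj hj']
    have h1 := (hWpos _ (hM2 _ (hs j hj'))).2
    simp only [Tb, mem_filter] at h1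
    refine (disjoint_of_subset_right ?_ h1.2.2).symm
    exact (subset_biUnion_of_mem (fun i => translate (t1 i) (A i)) hi).trans subset_union_left
  have d13 : ∀ i ∈ J, ∀ j, j ∉ J → j ∉ Mi →
      Disjoint (translate (T i) (A i)) (translate (T j) (A j)) := by
    intro i hi j hj hj'
    rw [hT1 i hi, hT3 j hj hj']
    refine (disjoint_of_subset_right ?_ (ht2b j (hLmem j hj hj'))).symm
    exact subset_biUnion_of_mem (fun i => translate (t1 i) (A i)) hi
  have d23 : ∀ i, i ∉ J → i ∈ Mi → ∀ j, j ∉ J → j ∉ Mi →
      Disjoint (translate (T i) (A i)) (translate (T j) (A j)) := by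
    intro i hi hi' j hj hj'
    rw [hT2 i hi hi', hT3 j hj hj']
    have h1 := (hWpos _ (hM2 _ (hs i hi'))).2
    simp only [Tb, mem_filter] at h1
    have h2 := ht2a j (hLmem j hj hj')
    rw [mem_filter] at h2
    rw [disjoint_left]
    intro x hx hx'
    exact h1.2.1 x hx (h2.2 x hx')
  refine ⟨T, ?_⟩
  intro i j hij
  by_cases hi : i ∈ J
  · by_cases hj : j ∈ J
    · rw [hT1 i hi, hT1 j hj]; exact ht1 i hi j hj hij
    · by_cases hj' : j ∈ Mi
      · exact d12 i hi j hj hj'
      · exact d13 i hi j hj hj'
  · by_cases hi' : i ∈ Mi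
    · by_cases hj : j ∈ J
      · exact (d12 j hj i hi hi').symm
      · by_cases hj' : j ∈ Mi
        · rw [hT2 i hi hi', hT2 j hj hj']
          have h1 := hM1 _ (hs i hi') _ (hs j hj') (fun h => hij (congrArg Prod.fst h))
          rw [disjoint_left] at h1 ⊢
          intro x hx hx'
          exact h1 (a := Sum.inl x) (by simpa using hx) (by simpa using hx')
        · exact d23 i hi hi' j hj hj'
    · by_cases hj : j ∈ J
      · exact (d13 j hj i hi hi').symm
      · by_cases hj' : j ∈ Mi
        · exact (d23 j hj hj' i hi hi').symm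
        · rw [hT3 i hi hi', hT3 j hj hj']
          exact ht2c i (hLmem i hi hi') j (hLmem j hj hj') hij

end Pool.Agent.W2helper68.CD
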