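import Pool.Agent.W2helper68.CD.Core

/-!
# Cyclic designs with `k ≥ lam + 2`: disjoint representatives of the block orbits
-/

set_option autoImplicit false

namespace Pool.Agent.W2helper68.CD

open Finset Pool.Agent.R117.Cyc

open scoped Classical in
theorem core (k lam : ℕ) (hk : lam + 2 ≤ k) : ∃ v0 : ℕ, 1 ≤ v0 ∧ ∀ v : ℕ, v0 ≤ v → ∀ [NeZero v]
    (ι : Type) [Fintype ι] (A : ι → Finset (ZMod v)), (∀ i, (A i).card = k) →
    (∀ x y : ZMod v, x ≠ y →
      ∑ i, ((orb (A i)).filter (fun C => x ∈ C ∧ y ∈ C)).card ≤ lam) →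
    ∃ t : ι → ZMod v, ∀ i j, i ≠ j →
      Disjoint (translate (t i) (A i)) (translate (t j) (A j)) := by
  set m : ℕ := 2 * (k - 1) with hm
  have hm2 : 2 ≤ m := by omega
  set q : ℝ := ((m - 1 : ℕ) : ℝ) / m with hq
  have hk1 : (1 : ℝ) ≤ ((k - 1 : ℕ) : ℝ) := by
    have : 1 ≤ k - 1 := by omega
    exact_mod_cast this
  have hmr : (m : ℝ) = 2 * ((k - 1 : ℕ) : ℝ) := by rw [hm]; push_cast; ring
  have hm1r : ((m - 1 : ℕ) : ℝ) = 2 * ((k - 1 : ℕ) : ℝ) - 1 := by
    rw [Nat.cast_sub (by omega), hmr]; push_cast; ring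
  have hqv : q = 1 - 1 / (2 * ((k - 1 : ℕ) : ℝ)) := by
    rw [hq, hm1r, hmr]; field_simp
  have hlam : (lam : ℝ) / ((k - 1 : ℕ) : ℝ) ≤ 1 - 1 / ((k - 1 : ℕ) : ℝ) := by
    rw [div_le_iff₀ (by linarith)]
    have h1 : (1 - 1 / ((k - 1 : ℕ) : ℝ)) * ((k - 1 : ℕ) : ℝ) = ((k - 1 : ℕ) : ℝ) - 1 := by
      field_simp
    rw [h1]
    have h2 : lam + 1 ≤ k - 1 := by omega
    have h3 : (lam : ℝ) + 1 ≤ ((k - 1 : ℕ) : ℝ) := by exact_mod_cast h2
    linarith
  have hinv : 0 < 1 / (2 * ((k - 1 : ℕ) : ℝ)) := by positivity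
  have hinv2 : 1 / ((k - 1 : ℕ) : ℝ) = 2 * (1 / (2 * ((k - 1 : ℕ) : ℝ))) := by field_simp
  have hinv3 : 1 / (2 * ((k - 1 : ℕ) : ℝ)) ≤ 1 / 2 := by
    apply one_div_le_one_div_of_le (by norm_num); linarith
  have hqp : 0 < q := by rw [hqv]; linarith
  have hq1 : q ≤ 1 := by rw [hqv]; linarith
  have hgap : 0 < q - lam / ((k - 1 : ℕ) : ℝ) := by rw [hqv]; linarith
  have hlam0 : (0 : ℝ) ≤ lam / ((k - 1 : ℕ) : ℝ) := by positivity
  set Δ : ℝ := q ^ (k - 1) * (q - lam / ((k - 1 : ℕ) : ℝ)) with hΔ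
  have hqk1 : q ^ (k - 1) ≤ 1 := pow_le_one₀ hqp.le hq1
  have hqk1p : 0 < q ^ (k - 1) := pow_pos hqp _
  have hqk : q ^ k ≤ 1 := pow_le_one₀ hqp.le hq1
  have hqkp : 0 < q ^ k := pow_pos hqp _
  have hΔp : 0 < Δ := mul_pos hqk1p hgap
  have hΔ1 : Δ ≤ 1 := by
    rw [hΔ]
    have : q - lam / ((k - 1 : ℕ) : ℝ) ≤ 1 := by linarith
    nlinarith
  set ε : ℝ := Δ / 4 with hε
  have hεp : 0 < ε := by positivity
  have hε2 : ε < 1 / 2 := by rw [hε]; linarith
  have hload : q ^ (k - 1) * (lam / ((k - 1 : ℕ) : ℝ)) + ε ≤ (1 - 2 * ε) * q ^ k := by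
    have h1 : q ^ k = q ^ (k - 1) * q := by
      rw [← pow_succ]; congr 1; omega
    have h2 : q ^ (k - 1) * (lam / ((k - 1 : ℕ) : ℝ)) = q ^ k - Δ := by
      rw [hΔ, h1]; ring
    rw [h2]
    have h3 : 2 * ε * q ^ k ≤ 2 * ε := by nlinarith
    have h4 : Δ = 4 * ε := by rw [hε]; ring
    nlinarith
  have hkp : (0 : ℝ) < k := by
    have : 0 < k := by omega
    exact_mod_cast this
  have hmp : (0 : ℝ) < m := by
    have : 0 < m := by omega
    exact_mod_cast this
  set θ : ℝ := 1 / (8 * k ^ 2 * m ^ k) with hθ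
  have hθp : 0 < θ := by positivity
  obtain ⟨κ, hκ, hnib⟩ := Pool.Agent.TH437.SP.nibble_T (k + 1) θ hθp
  set C0 : ℕ := ⌈Cst k lam m ε + k * lam⌉₊ with hC0
  have hC0' : Cst k lam m ε + k * lam ≤ C0 := Nat.le_ceil _
  -- the largeness conditions
  have e1 : ∀ᶠ v : ℕ in Filter.atTop, k ^ 2 * C0 < v := Filter.eventually_gt_atTop _
  have e2 : ∀ᶠ v : ℕ in Filter.atTop, (k * ((k + 1) * C0) : ℝ) ≤ ε * q ^ k * v := by
    have : Filter.Tendsto (fun v : ℕ => ε * q ^ k * (v : ℝ)) Filter.atTop Filter.atTop :=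
      Filter.Tendsto.const_mul_atTop (by positivity) tendsto_natCast_atTop_atTop
    exact this.eventually_ge_atTop _
  have e3 : ∀ᶠ v : ℕ in Filter.atTop,
      ((lam + k : ℕ) : ℝ) * (1 / ((1 - 2 * ε) * q ^ k * v)) ≤ κ := by
    have h0 : 0 < (1 - 2 * ε) * q ^ k := mul_pos (by linarith) hqkp
    have : Filter.Tendsto (fun v : ℕ => ((1 - 2 * ε) * q ^ k) * κ * (v : ℝ)) Filter.atTop
        Filter.atTop :=
      Filter.Tendsto.const_mul_atTop (by positivity) tendsto_natCast_atTop_atTop
    filter_upwards [this.eventually_ge_atTop ((lam + k : ℕ) : ℝ), Filter.eventually_gt_atTop 0]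
      with v hv hv0
    have hv0' : (0 : ℝ) < v := by exact_mod_cast hv0
    rw [mul_one_div, div_le_iff₀ (by positivity)]
    calc ((lam + k : ℕ) : ℝ) ≤ ((1 - 2 * ε) * q ^ k) * κ * (v : ℝ) := hv
      _ = _ := by ring
  have e4 : ∀ᶠ v : ℕ in Filter.atTop, (k * (k * C0) : ℝ) ≤ v / (8 * m ^ k) := by
    have : Filter.Tendsto (fun v : ℕ => (v : ℝ) / (8 * m ^ k)) Filter.atTop Filter.atTop :=
      Filter.Tendsto.atTop_div_const (by positivity) tendsto_natCast_atTop_atTop
    exact this.eventually_ge_atTop _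
  obtain ⟨v0, hv0⟩ := Filter.eventually_atTop.1 (e1.and (e2.and (e3.and e4)))
  refine ⟨v0 + 1, by omega, ?_⟩
  intro v hv _ ι _ A hA hpair
  obtain ⟨h1, h2, h3, h4⟩ := hv0 v (by omega)
  exact step k lam m (by omega) (by omega) hm2 ε θ κ hεp hε2 hθp
    (by rw [hθ, div_mul_cancel₀]; positivity) hload hκ hnib C0 hC0' v h1 h2 h3 h4 ι A hA hpair

/-- translation equivalence -/
def trSetoid (v : ℕ) [NeZero v] : Setoid (Finset (ZMod v)) where
  r B C := ∃ t, C = translate t B
  iseqv :=
    { refl := fun B => ⟨0, (translate_zero B).symm⟩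
      symm := by
        rintro B C ⟨t, rfl⟩
        exact ⟨-t, by rw [translate_translate, add_neg_cancel, translate_zero]⟩
      trans := by
        rintro B C D ⟨t, rfl⟩ ⟨s, rfl⟩
        exact ⟨t + s, by rw [translate_translate]⟩ }

open scoped Classical in
/-- From families of base blocks to designs. -/
theorem design {v k lam : ℕ} [NeZero v] (Bs : Multiset (Finset (ZMod v)))
    (hB : IsCyclicDesign v k lam Bs)
    (hcore : ∀ (ι : Type) [Fintype ι] (A : ι → Finset (ZMod v)), (∀ i, (A i).card = k) →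
      (∀ x y : ZMod v, x ≠ y →
        ∑ i, ((orb (A i)).filter (fun C => x ∈ C ∧ y ∈ C)).card ≤ lam) →
      ∃ t : ι → ZMod v, ∀ i j, i ≠ j →
        Disjoint (translate (t i) (A i)) (translate (t j) (A j))) :
    HasDisjointReps Bs := by
  let S : Setoid (Finset (ZMod v)) := trSetoid v
  have : Fintype (Quotient S) := Fintype.ofFinite _
  let ι : Type := Σ c : Quotient S, Fin (Bs.count c.out)
  let A : ι → Finset (ZMod v) := fun i => i.1.out
  have hcount : ∀ B C : Finset (ZMod v), (∃ t, C = translate t B) → Bs.count C = Bs.count B := by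
    rintro B C ⟨t, rfl⟩
    exact hB.invariant t B
  have hout : ∀ B : Finset (ZMod v), ∃ t, B = translate t (Quotient.mk S B).out := by
    intro B
    have h : S ((Quotient.mk S B).out) B := Quotient.mk_out (s := S) B
    exact h
  have hAcard : ∀ i, (A i).card = k := by
    rintro ⟨c, j⟩
    apply hB.card_block
    have : 0 < Bs.count c.out := lt_of_le_of_lt (Nat.zero_le _) j.2
    exact Multiset.count_pos.1 this
  have horb : ∀ (c : Quotient S) (C : Finset (ZMod v)), C ∈ orb c.out ↔ Quotient.mk S C = c := by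
    intro c C
    constructor
    · intro h
      unfold orb at h
      rw [mem_image] at h
      obtain ⟨t, -, rfl⟩ := h
      conv_rhs => rw [← Quotient.out_eq c]
      exact (Quotient.sound (s := S) (show S c.out (translate t c.out) from ⟨t, rfl⟩)).symm
    · rintro rfl
      obtain ⟨t, ht⟩ := hout C
      unfold orb
      rw [mem_image]
      exact ⟨t, mem_univ _, ht.symm⟩
  have hpair : ∀ x y : ZMod v, x ≠ y →
      ∑ i : ι, ((orb (A i)).filter (fun C => x ∈ C ∧ y ∈ C)).card ≤ lam := by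
    intro x y hxy
    rw [← hB.pair x y hxy]
    have h1 : Multiset.card (Bs.filter (fun B => x ∈ B ∧ y ∈ B))
        = ∑ C : Finset (ZMod v), if x ∈ C ∧ y ∈ C then Bs.count C else 0 := by
      rw [← Multiset.toFinset_sum_count_eq]
      rw [Finset.sum_subset (subset_univ _)]
      · refine sum_congr rfl (fun C _ => ?_)
        rw [Multiset.count_filter]
      · intro C _ hC
        rw [Multiset.mem_toFinset] at hC
        exact Multiset.count_eq_zero_of_notMem hC
    rw [h1, Fintype.sum_sigma]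
    apply le_of_eq
    have h2 : ∑ C : Finset (ZMod v), (if x ∈ C ∧ y ∈ C then Bs.count C else 0)
        = ∑ c : Quotient S, ∑ C ∈ (univ : Finset (Finset (ZMod v))).filter
            (fun C => Quotient.mk S C = c), (if x ∈ C ∧ y ∈ C then Bs.count C else 0) :=
      (sum_fiberwise (univ : Finset (Finset (ZMod v))) (fun C => Quotient.mk S C) _).symm
    rw [h2]
    refine sum_congr rfl (fun c _ => ?_)
    simp only [A]
    rw [sum_const, card_univ, Fintype.card_fin, smul_eq_mul]
    have h3 : (univ : Finset (Finset (ZMod v))).filter (fun C => Quotient.mk S C = c)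
        = orb c.out := by
      ext C
      rw [mem_filter, horb]
      simp
    rw [h3, ← sum_filter]
    have h4 : ∀ C ∈ (orb c.out).filter (fun C => x ∈ C ∧ y ∈ C), Bs.count C = Bs.count c.out := by
      intro C hC
      rw [mem_filter] at hC
      have := hC.1
      unfold orb at this
      rw [mem_image] at this
      obtain ⟨t, -, rfl⟩ := this
      exact hB.invariant t _
    rw [sum_congr rfl h4, sum_const, smul_eq_mul, mul_comm]
  obtain ⟨t, ht⟩ := hcore ι A hAcard hpair
  refine ⟨(univ : Finset ι).val.map (fun i => translate (t i) (A i)), ?_, ?_⟩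
  · refine ⟨(univ : Finset ι).toList.map (fun i => translate (t i) (A i)), ?_, ?_⟩
    · rw [← Multiset.map_coe, Finset.coe_toList]
    · rw [List.pairwise_map]
      have hnd : (univ : Finset ι).toList.Pairwise (fun a b => a ≠ b) := (univ : Finset ι).nodup_toList
      exact hnd.imp (fun {a b} h => ht a b h)
  · intro B
    rw [Multiset.filter_map, Multiset.card_map]
    have h1 : Multiset.card (Multiset.filter
        ((fun C => ∃ s, C = translate s B) ∘ fun i => translate (t i) (A i))
        (univ : Finset ι).val)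
        = ((univ : Finset ι).filter (fun i => i.1 = Quotient.mk S B)).card := by
      rw [Finset.card_def, Finset.filter_val]
      congr 1
      apply Multiset.filter_congr
      intro i _
      simp only [Function.comp]
      constructor
      · rintro ⟨s, hs⟩
        have h2 : B ∈ orb i.1.out := by
          unfold orb
          rw [mem_image]
          refine ⟨t i + -s, mem_univ _, ?_⟩
          rw [← translate_translate]
          change translate (-s) (translate (t i) (A i)) = B
          rw [hs, translate_translate, add_neg_cancel, translate_zero]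
        exact ((horb i.1 B).1 h2).symm
      · intro h
        have h2 : B ∈ orb i.1.out := (horb i.1 B).2 h.symm
        unfold orb at h2
        rw [mem_image] at h2
        obtain ⟨s, -, hs⟩ := h2
        refine ⟨-s + t i, ?_⟩
        rw [← hs, translate_translate]
        change translate (t i) i.1.out = _
        congr 1
        ring
    refine Eq.trans (b := ((univ : Finset ι).filter (fun i => i.1 = Quotient.mk S B)).card)
      (by convert h1) ?_
    have h2 : (univ : Finset ι).filter (fun i => i.1 = Quotient.mk S B)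
        = (univ : Finset (Fin (Bs.count (Quotient.mk S B).out))).map
          ⟨fun j => (⟨Quotient.mk S B, j⟩ : ι), fun a b h => by simpa using h⟩ := by
      ext ⟨c, j⟩
      simp only [mem_filter, mem_univ, true_and, mem_map, Function.Embedding.coeFn_mk]
      constructor
      · rintro rfl; exact ⟨j, rfl⟩
      · rintro ⟨j', hj'⟩; exact (congrArg Sigma.fst hj').symm
    rw [h2, card_map, card_univ, Fintype.card_fin]
    obtain ⟨s, hs⟩ := hout B
    exact (hcount _ _ ⟨s, hs⟩).symm

theorem positive (k lam : ℕ) (hk : lam + 2 ≤ k) : ∃ v0 : ℕ, ∀ v : ℕ, v0 ≤ v →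
    ∀ Bs : Multiset (Finset (ZMod v)), IsCyclicDesign v k lam Bs → HasDisjointReps Bs := by
  obtain ⟨v0, hv1, hv0⟩ := core k lam hk
  refine ⟨v0, fun v hv Bs hB => ?_⟩
  have : NeZero v := ⟨by omega⟩
  exact design Bs hB (fun ι _ A hA hp => hv0 v hv ι A hA (by convert hp))

end Pool.Agent.W2helper68.CD
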