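import Mathlib

/-!
# Second moments for counts of monochromatic patterns under a uniform random colouring
-/

set_option autoImplicit false

namespace Pool.Agent.W2helper68.CD

open Finset

section

variable {α : Type} [Fintype α] [DecidableEq α] {m : ℕ}

/-- The number of colourings with all colours of `X` in `P`. -/
lemma count_colourings [NeZero m] (X : Finset α) (P : Finset (Fin m)) :
    (((univ : Finset (α → Fin m)).filter (fun f => ∀ x ∈ X, f x ∈ P)).card : ℝ)
      = (m : ℝ) ^ (Fintype.card α) * ((P.card : ℝ) / m) ^ X.card := by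
  classical
  have h1 : (univ : Finset (α → Fin m)).filter (fun f => ∀ x ∈ X, f x ∈ P)
      = Fintype.piFinset (fun x => if x ∈ X then P else univ) := by
    ext f
    simp only [mem_filter, mem_univ, true_and, Fintype.mem_piFinset]
    constructor
    · intro h x
      by_cases hx : x ∈ X
      · simp [hx, h x hx]
      · simp [hx]
    · intro h x hx
      have := h x
      simpa [hx] using this
  rw [h1, Fintype.card_piFinset]
  have h2 : ∀ x : α, (if x ∈ X then P else (univ : Finset (Fin m))).card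
      = if x ∈ X then P.card else m := by
    intro x
    split_ifs <;> simp
  simp_rw [h2]
  rw [Finset.prod_ite]
  have h3 : (univ : Finset α).filter (fun x => x ∈ X) = X := by ext x; simp
  rw [h3]
  have h4 : ((univ : Finset α).filter (fun x => x ∉ X)).card = Fintype.card α - X.card := by
    have : (univ : Finset α).filter (fun x => x ∉ X) = univ \ X := by ext x; simp
    rw [this, card_sdiff_of_subset (subset_univ _), card_univ]
  simp only [prod_const, h4]
  push_cast
  have hm : (m : ℝ) ≠ 0 := by exact_mod_cast NeZero.ne m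
  have hle : X.card ≤ Fintype.card α := by rw [← card_univ]; exact card_le_card (subset_univ _)
  rw [div_pow, ← Nat.sub_add_cancel hle, pow_add]
  have h5 : Fintype.card α - X.card + X.card - X.card = Fintype.card α - X.card := by omega
  rw [h5]
  field_simp

/-- number of patterns all of whose colours lie in `P` -/
noncomputable def Zc {τ : Type} (T : Finset τ) (X : τ → Finset α) (P : Finset (Fin m))
    (f : α → Fin m) : ℝ :=
  ((T.filter (fun t => ∀ x ∈ X t, f x ∈ P)).card : ℝ)

lemma sum_Zc [NeZero m] {τ : Type} (T : Finset τ) (X : τ → Finset α) (P : Finset (Fin m)) (r : ℕ)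
    (hX : ∀ t ∈ T, (X t).card = r) :
    ∑ f : α → Fin m, Zc T X P f
      = (m : ℝ) ^ (Fintype.card α) * (T.card * ((P.card : ℝ) / m) ^ r) := by
  classical
  have h1 : ∀ f : α → Fin m, Zc T X P f = ∑ t ∈ T, if (∀ x ∈ X t, f x ∈ P) then (1 : ℝ) else 0 := by
    intro f
    unfold Zc
    rw [card_filter]; push_cast; rfl
  simp_rw [h1]
  rw [Finset.sum_comm]
  have h2 : ∀ t ∈ T, (∑ f : α → Fin m, if (∀ x ∈ X t, f x ∈ P) then (1 : ℝ) else 0)
      = (m : ℝ) ^ (Fintype.card α) * ((P.card : ℝ) / m) ^ r := by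
    intro t ht
    rw [← hX t ht, ← count_colourings, card_filter]; push_cast; rfl
  rw [sum_congr rfl h2, sum_const, nsmul_eq_mul]; ring

lemma sum_Zc_sq [NeZero m] {τ : Type} (T : Finset τ) (X : τ → Finset α) (P : Finset (Fin m))
    (r : ℕ) (hX : ∀ t ∈ T, (X t).card = r) (D : ℝ)
    (hD : (((T ×ˢ T).filter (fun p => ¬ Disjoint (X p.1) (X p.2))).card : ℝ) ≤ D) :
    ∑ f : α → Fin m, (Zc T X P f) ^ 2
      ≤ (m : ℝ) ^ (Fintype.card α) * ((T.card * ((P.card : ℝ) / m) ^ r) ^ 2 + D) := by
  classical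
  have hm : (0 : ℝ) < m := by exact_mod_cast NeZero.pos m
  set p : ℝ := (P.card : ℝ) / m with hp
  have hp0 : 0 ≤ p := by positivity
  have hp1 : p ≤ 1 := by
    rw [hp, div_le_one hm]
    have : P.card ≤ (univ : Finset (Fin m)).card := card_le_card (subset_univ _)
    rw [card_univ, Fintype.card_fin] at this
    exact_mod_cast this
  have h1 : ∀ f : α → Fin m, (Zc T X P f) ^ 2
      = ∑ q ∈ T ×ˢ T, if (∀ x ∈ X q.1 ∪ X q.2, f x ∈ P) then (1 : ℝ) else 0 := by
    intro f
    have h0 : Zc T X P f = ∑ t ∈ T, if (∀ x ∈ X t, f x ∈ P) then (1 : ℝ) else 0 := by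
      unfold Zc
      rw [card_filter]; push_cast; rfl
    rw [h0, sq, sum_mul_sum, sum_product]
    refine sum_congr rfl (fun t _ => sum_congr rfl (fun t' _ => ?_))
    by_cases ha : ∀ x ∈ X t, f x ∈ P <;> by_cases hb : ∀ x ∈ X t', f x ∈ P
    · rw [if_pos ha, if_pos hb, if_pos, mul_one]
      intro x hx
      rcases mem_union.1 hx with h | h
      · exact ha x h
      · exact hb x h
    · rw [if_pos ha, if_neg hb, if_neg, mul_zero]
      intro h; exact hb (fun x hx => h x (mem_union_right _ hx))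
    · rw [if_neg ha, if_pos hb, if_neg, zero_mul]
      intro h; exact ha (fun x hx => h x (mem_union_left _ hx))
    · rw [if_neg ha, if_neg hb, if_neg, zero_mul]
      intro h; exact ha (fun x hx => h x (mem_union_left _ hx))
  simp_rw [h1]
  rw [Finset.sum_comm]
  have h2 : ∀ q ∈ T ×ˢ T, (∑ f : α → Fin m, if (∀ x ∈ X q.1 ∪ X q.2, f x ∈ P) then (1 : ℝ) else 0)
      = (m : ℝ) ^ (Fintype.card α) * p ^ (X q.1 ∪ X q.2).card := by
    intro q _
    rw [hp, ← count_colourings, card_filter]; push_cast; rfl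
  rw [sum_congr rfl h2, ← mul_sum]
  refine mul_le_mul_of_nonneg_left ?_ (by positivity)
  have h3 : ∀ q ∈ T ×ˢ T, p ^ (X q.1 ∪ X q.2).card
      ≤ p ^ r * p ^ r + if ¬ Disjoint (X q.1) (X q.2) then (1 : ℝ) else 0 := by
    intro q hq
    rw [mem_product] at hq
    by_cases hd : Disjoint (X q.1) (X q.2)
    · rw [card_union_of_disjoint hd, hX _ hq.1, hX _ hq.2, pow_add]
      simp [hd]
    · rw [if_pos hd]
      have h4 : p ^ (X q.1 ∪ X q.2).card ≤ 1 := pow_le_one₀ hp0 hp1
      have h5 : 0 ≤ p ^ r * p ^ r := by positivity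
      linarith
  refine (sum_le_sum h3).trans ?_
  rw [sum_add_distrib, sum_const, card_product, nsmul_eq_mul]
  have h6 : (∑ q ∈ T ×ˢ T, if ¬ Disjoint (X q.1) (X q.2) then (1 : ℝ) else 0)
      = (((T ×ˢ T).filter (fun p => ¬ Disjoint (X p.1) (X p.2))).card : ℝ) := by
    rw [card_filter]; push_cast; rfl
  rw [h6]
  push_cast
  nlinarith [hD]

/-- Chebyshev. -/
lemma cheb [NeZero m] {τ : Type} (T : Finset τ) (X : τ → Finset α) (P : Finset (Fin m)) (r : ℕ)
    (hX : ∀ t ∈ T, (X t).card = r) (D : ℝ)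
    (hD : (((T ×ˢ T).filter (fun p => ¬ Disjoint (X p.1) (X p.2))).card : ℝ) ≤ D)
    (δ : ℝ) (hδ : 0 < δ) :
    (((univ : Finset (α → Fin m)).filter
      (fun f => δ ≤ |Zc T X P f - T.card * ((P.card : ℝ) / m) ^ r|)).card : ℝ)
      ≤ (m : ℝ) ^ (Fintype.card α) * (D / δ ^ 2) := by
  classical
  set μ : ℝ := T.card * ((P.card : ℝ) / m) ^ r with hμ
  set M : ℝ := (m : ℝ) ^ (Fintype.card α) with hM
  have h1 : ∑ f : α → Fin m, (Zc T X P f - μ) ^ 2 ≤ M * D := by
    have e : ∀ f : α → Fin m, (Zc T X P f - μ) ^ 2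
        = (Zc T X P f) ^ 2 - 2 * μ * Zc T X P f + μ ^ 2 := fun f => by ring
    simp_rw [e]
    rw [sum_add_distrib, sum_sub_distrib, ← mul_sum, sum_Zc T X P r hX, sum_const, nsmul_eq_mul,
      card_univ, Fintype.card_fun, Fintype.card_fin]
    have h2 := sum_Zc_sq T X P r hX D hD
    rw [← hμ, ← hM] at *
    push_cast
    rw [← hM]
    nlinarith [h2]
  have h3 : (((univ : Finset (α → Fin m)).filter
      (fun f => δ ≤ |Zc T X P f - μ|)).card : ℝ) * δ ^ 2 ≤ ∑ f : α → Fin m, (Zc T X P f - μ) ^ 2 := by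
    rw [← nsmul_eq_mul, ← sum_const]
    refine (sum_le_sum (fun f hf => ?_)).trans (sum_le_sum_of_subset_of_nonneg (filter_subset _ _)
      (fun f _ _ => sq_nonneg _))
    rw [mem_filter] at hf
    rw [← sq_abs (Zc T X P f - μ)]
    exact pow_le_pow_left₀ hδ.le hf.2 2
  have h4 := h3.trans h1
  rw [← mul_div_assoc, le_div_iff₀ (by positivity)]
  exact h4

end

end Pool.Agent.W2helper68.CD
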