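import Pool.Agent.R117.Cyc2

/-!
# Cyclic `(k n, k, k - 1)`-designs with short orbits, for every `k ≥ 2`
-/

set_option autoImplicit false

namespace Pool.Agent.W2helper68.CD.Neg

open Finset Pool.Agent.R117.Cyc

section

variable {k n N : ℕ} [NeZero k] [Fact n.Prime] (ζ : ZMod n)

/-- powers of `ζ` indexed by `ZMod k` -/
def z (i : ZMod k) : ZMod n := ζ ^ i.val

variable {ζ}

lemma z_add (hζ : IsPrimitiveRoot ζ k) (i j : ZMod k) : z ζ (i + j) = z ζ i * z ζ j := by
  unfold z
  rw [← pow_add, ZMod.val_add]
  have := pow_mod_orderOf ζ (i.val + j.val)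
  rw [← hζ.eq_orderOf] at this
  exact this

lemma z_ne (hζ : IsPrimitiveRoot ζ k) (i : ZMod k) : z ζ i ≠ 0 := by
  unfold z
  exact pow_ne_zero _ (hζ.ne_zero (NeZero.ne k))

lemma z_zero : z (k := k) ζ 0 = 1 := by unfold z; simp

lemma z_inj (hζ : IsPrimitiveRoot ζ k) : Function.Injective (z (k := k) ζ) := by
  intro i j h
  unfold z at h
  exact ZMod.val_injective k (hζ.pow_inj (ZMod.val_lt i) (ZMod.val_lt j) h)

/-- exactly one element of each coset of the `k`-th roots of unity is an `N`-th root of unity -/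
lemma unique_index (hζ : IsPrimitiveRoot ζ k) (hn : n - 1 = k * N) (hc : Nat.Coprime k N)
    (u : ZMod n) (hu : u ≠ 0) : ∃! i : ZMod k, (u * z ζ i) ^ N = 1 := by
  have hcz : IsUnit ((N : ℕ) : ZMod k) := (ZMod.isUnit_iff_coprime N k).2 hc.symm
  obtain ⟨c, hcc⟩ := hcz
  have hzN : ∀ i : ZMod k, (z ζ i) ^ N = z ζ ((N : ZMod k) * i) := by
    intro i
    have : ∀ M : ℕ, (z ζ i) ^ M = z ζ ((M : ZMod k) * i) := by
      intro M
      induction M with
      | zero => simp [z_zero]
      | succ M ih => rw [pow_succ, ih]; push_cast; rw [add_mul, one_mul, z_add hζ]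
    exact this N
  have hpow : (u ^ N) ^ k = 1 := by
    rw [← pow_mul, mul_comm, ← hn]
    exact ZMod.pow_card_sub_one_eq_one hu
  obtain ⟨s, hs, hs'⟩ := hζ.eq_pow_of_pow_eq_one hpow
  have hs2 : u ^ N = z ζ ((s : ZMod k)) := by
    unfold z; rw [ZMod.val_natCast, Nat.mod_eq_of_lt hs]; exact hs'.symm
  refine ⟨-(↑c⁻¹ * (s : ZMod k)), ?_, ?_⟩
  · simp only
    rw [mul_pow, hzN, hs2, ← z_add hζ]
    have : (s : ZMod k) + (N : ZMod k) * -(↑c⁻¹ * (s : ZMod k)) = 0 := by
      rw [← hcc]
      have h1 : (c : ZMod k) * ((c⁻¹ : (ZMod k)ˣ) : ZMod k) = 1 := by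
        rw [← Units.val_mul, mul_inv_cancel, Units.val_one]
      linear_combination -(s : ZMod k) * h1
    rw [this, z_zero]
  · intro j hj
    rw [mul_pow, hzN, hs2, ← z_add hζ] at hj
    have h0 : (s : ZMod k) + (N : ZMod k) * j = 0 := by
      apply z_inj hζ
      rw [hj, z_zero]
    rw [← hcc] at h0
    have h1 : ((c⁻¹ : (ZMod k)ˣ) : ZMod k) * (c : ZMod k) = 1 := by
      rw [← Units.val_mul, inv_mul_cancel, Units.val_one]
    linear_combination (((c⁻¹ : (ZMod k)ˣ) : ZMod k)) * h0 - j * h1

variable (ζ) (N) in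
/-- the points of the base block with parameter `m` -/
noncomputable def pt (e : ZMod (k * n) ≃+* ZMod k × ZMod n) (m : (ZMod n)ˣ) (i : ZMod k) :
    ZMod (k * n) := by
  classical
  exact e.symm (if (m : ZMod n) ^ N = 1 then 0 else i, m * z ζ i)

lemma pt_inj (hζ : IsPrimitiveRoot ζ k) (e : ZMod (k * n) ≃+* ZMod k × ZMod n) (m : (ZMod n)ˣ) :
    Function.Injective (pt N ζ e m) := by
  intro i j h
  unfold pt at h
  have h1 := e.symm.injective h
  have h2 := (Prod.mk.inj h1).2
  exact z_inj hζ (mul_left_cancel₀ (Units.ne_zero m) h2)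

variable (ζ) (N) in
noncomputable def Bl [NeZero (k * n)] (e : ZMod (k * n) ≃+* ZMod k × ZMod n) (m : (ZMod n)ˣ) :
    Finset (ZMod (k * n)) := univ.image (pt N ζ e m)

noncomputable def Sl [NeZero (k * n)] (e : ZMod (k * n) ≃+* ZMod k × ZMod n) (y : ZMod n) :
    Finset (ZMod (k * n)) := univ.image (fun i : ZMod k => e.symm (i, y))

variable (ζ) (N) in
noncomputable def design [NeZero (k * n)] (e : ZMod (k * n) ≃+* ZMod k × ZMod n) :
    Multiset (Finset (ZMod (k * n))) :=
  (univ : Finset ((ZMod n)ˣ × ZMod (k * n))).val.map (fun p => translate p.2 (Bl N ζ e p.1))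
    + (k - 1) • (univ : Finset (ZMod n)).val.map (Sl e)

open scoped Classical in
/-- number of solutions of `b_j - b_i = w` over all base blocks -/
lemma count_diff [NeZero (k * n)] (hζ : IsPrimitiveRoot ζ k) (hn : n - 1 = k * N)
    (hc : Nat.Coprime k N)
    (e : ZMod (k * n) ≃+* ZMod k × ZMod n) (w : ZMod (k * n)) (hw : w ≠ 0) :
    ((univ : Finset ((ZMod n)ˣ × ZMod k × ZMod k)).filter
      (fun p => pt N ζ e p.1 p.2.2 - pt N ζ e p.1 p.2.1 = w)).card
      = if (e w).2 = 0 then 0 else k - 1 := by
  have hpt : ∀ (m : (ZMod n)ˣ) (i j : ZMod k), pt N ζ e m j - pt N ζ e m i = w ↔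
      ((if (m : ZMod n) ^ N = 1 then 0 else j - i) = (e w).1 ∧
        (m : ZMod n) * (z ζ j - z ζ i) = (e w).2) := by
    intro m i j
    unfold pt
    rw [← map_sub, RingEquiv.symm_apply_eq, Prod.ext_iff]
    simp only [Prod.fst_sub, Prod.snd_sub]
    rw [mul_sub]
    split_ifs <;> simp
  have hzd : ∀ i d : ZMod k, z ζ (i + d) - z ζ i = z ζ i * (z ζ d - 1) := by
    intro i d; rw [z_add hζ]; ring
  have hzd0 : ∀ d : ZMod k, d ≠ 0 → z ζ d - 1 ≠ 0 := by
    intro d hd h
    apply hd
    apply z_inj hζ
    rw [z_zero]; exact sub_eq_zero.1 h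
  split_ifs with h0
  · rw [card_eq_zero, filter_eq_empty_iff]
    rintro ⟨m, i, j⟩ _ hh
    rw [hpt, h0] at hh
    have h1 : z ζ j - z ζ i = 0 := by
      rcases mul_eq_zero.1 hh.2 with h | h
      · exact absurd h (Units.ne_zero m)
      · exact h
    have h2 : j = i := z_inj hζ (sub_eq_zero.1 h1)
    subst h2
    have h3 : (e w).1 = 0 := by rw [← hh.1]; split_ifs <;> simp
    apply hw
    rw [← map_eq_zero_iff e e.injective]
    exact Prod.ext h3 h0
  · by_cases hd : (e w).1 = 0
    · -- same first coordinate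
      have hinj : Set.InjOn (fun p : (ZMod n)ˣ × ZMod k × ZMod k => p.2.2 - p.2.1)
          ((univ : Finset ((ZMod n)ˣ × ZMod k × ZMod k)).filter
            (fun p => pt N ζ e p.1 p.2.2 - pt N ζ e p.1 p.2.1 = w) : Set _) := by
        rintro ⟨m, i, j⟩ h ⟨m', i', j'⟩ h' heq
        simp only [coe_filter, mem_univ, true_and, Set.mem_ofPred_eq] at h h'
        simp only at heq
        rw [hpt] at h h'
        obtain ⟨h1, h2⟩ := h
        obtain ⟨h1', h2'⟩ := h'
        rw [hd] at h1 h1'
        have aux : ∀ (m : (ZMod n)ˣ) (i j : ZMod k),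
            (if (m : ZMod n) ^ N = 1 then (0 : ZMod k) else j - i) = 0 →
            (m : ZMod n) * (z ζ j - z ζ i) = (e w).2 → (m : ZMod n) ^ N = 1 := by
          intro m i j a b
          by_contra hcon
          rw [if_neg hcon, sub_eq_zero] at a
          rw [a, sub_self, mul_zero] at b
          exact h0 b.symm
        have a1 := aux m i j h1 h2
        have a1' := aux m' i' j' h1' h2'
        have e1 : j = i + (j - i) := by ring
        have e1' : j' = i' + (j - i) := by rw [heq]; ring
        rw [e1, hzd] at h2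
        rw [e1', hzd] at h2'
        have hdne : j - i ≠ 0 := by
          intro h; rw [h, z_zero, sub_self, mul_zero, mul_zero] at h2; exact h0 h2.symm
        have h3 : (m : ZMod n) * z ζ i = (m' : ZMod n) * z ζ i' := by
          have := h2.trans h2'.symm
          rw [← mul_assoc, ← mul_assoc] at this
          exact mul_right_cancel₀ (hzd0 _ hdne) this
        -- uniqueness of the index
        obtain ⟨i0, -, hi0⟩ := unique_index hζ hn hc ((m : ZMod n) * z ζ i)
          (mul_ne_zero (Units.ne_zero m) (z_ne hζ i))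
        have h4 : -i = i0 := by
          apply hi0
          rw [mul_assoc, ← z_add hζ, add_neg_cancel, z_zero, mul_one]; exact a1
        have h4' : -i' = i0 := by
          apply hi0
          rw [h3, mul_assoc, ← z_add hζ, add_neg_cancel, z_zero, mul_one]; exact a1'
        have h5 : i = i' := neg_injective (h4.trans h4'.symm)
        subst h5
        have h6 : m = m' := Units.ext (mul_right_cancel₀ (z_ne hζ i) h3)
        subst h6
        have h7 : j = j' := by
          have := heq
          simpa using this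
        rw [h7]
      rw [← card_image_of_injOn hinj]
      have himg : ((univ : Finset ((ZMod n)ˣ × ZMod k × ZMod k)).filter
            (fun p => pt N ζ e p.1 p.2.2 - pt N ζ e p.1 p.2.1 = w)).image
            (fun p : (ZMod n)ˣ × ZMod k × ZMod k => p.2.2 - p.2.1) = univ.erase 0 := by
        ext d
        simp only [mem_image, mem_filter, mem_univ, true_and, mem_erase, and_true, Prod.exists]
        constructor
        · rintro ⟨m, i, j, h, rfl⟩ h'
          rw [hpt] at h
          rw [sub_eq_zero] at h'
          have h2 := h.2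
          rw [h', sub_self, mul_zero] at h2
          exact h0 h2.symm
        · intro hd'
          obtain ⟨i0, hi0, -⟩ := unique_index hζ hn hc ((e w).2 / (z ζ d - 1))
            (div_ne_zero h0 (hzd0 d hd'))
          have hne : (e w).2 / (z ζ d - 1) * z ζ i0 ≠ 0 :=
            mul_ne_zero (div_ne_zero h0 (hzd0 d hd')) (z_ne hζ i0)
          refine ⟨Units.mk0 _ hne, -i0, -i0 + d, ?_, by ring⟩
          rw [hpt, hzd]
          constructor
          · rw [Units.val_mk0, if_pos hi0, hd]
          · rw [Units.val_mk0]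
            have : z ζ i0 * z ζ (-i0) = 1 := by rw [← z_add hζ, add_neg_cancel, z_zero]
            have h8 := hzd0 d hd'
            calc (e w).2 / (z ζ d - 1) * z ζ i0 * (z ζ (-i0) * (z ζ d - 1))
                = ((e w).2 / (z ζ d - 1) * (z ζ d - 1)) * (z ζ i0 * z ζ (-i0)) := by ring
              _ = (e w).2 := by rw [this, mul_one, div_mul_cancel₀ _ h8]
      rw [himg, card_erase_of_mem (mem_univ _), card_univ, ZMod.card]
    · -- different first coordinates
      have aux : ∀ (m : (ZMod n)ˣ) (i j : ZMod k),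
          (if (m : ZMod n) ^ N = 1 then (0 : ZMod k) else j - i) = (e w).1 →
          (m : ZMod n) ^ N ≠ 1 ∧ j = i + (e w).1 := by
        intro m i j a
        by_cases hcon : (m : ZMod n) ^ N = 1
        · rw [if_pos hcon] at a; exact absurd a.symm hd
        · rw [if_neg hcon] at a
          exact ⟨hcon, by rw [← a]; ring⟩
      have hinj : Set.InjOn (fun p : (ZMod n)ˣ × ZMod k × ZMod k => p.2.1)
          ((univ : Finset ((ZMod n)ˣ × ZMod k × ZMod k)).filter
            (fun p => pt N ζ e p.1 p.2.2 - pt N ζ e p.1 p.2.1 = w) : Set _) := by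
        rintro ⟨m, i, j⟩ h ⟨m', i', j'⟩ h' heq
        simp only [coe_filter, mem_univ, true_and, Set.mem_ofPred_eq] at h h'
        simp only at heq
        subst heq
        rw [hpt] at h h'
        obtain ⟨-, hj⟩ := aux _ _ _ h.1
        obtain ⟨-, hj'⟩ := aux _ _ _ h'.1
        subst hj hj'
        have h3 := h.2.trans h'.2.symm
        rw [hzd] at h3
        have h6 : m = m' := Units.ext
          (mul_right_cancel₀ (mul_ne_zero (z_ne hζ i) (hzd0 _ hd)) h3)
        rw [h6]
      rw [← card_image_of_injOn hinj]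
      have hden := hzd0 _ hd
      obtain ⟨i0, hi0, hi0'⟩ := unique_index hζ hn hc ((e w).2 / (z ζ (e w).1 - 1))
        (div_ne_zero h0 hden)
      simp only at hi0 hi0'
      have himg : ((univ : Finset ((ZMod n)ˣ × ZMod k × ZMod k)).filter
            (fun p => pt N ζ e p.1 p.2.2 - pt N ζ e p.1 p.2.1 = w)).image
            (fun p : (ZMod n)ˣ × ZMod k × ZMod k => p.2.1) = univ.erase (-i0) := by
        ext i
        simp only [mem_image, mem_filter, mem_univ, true_and, mem_erase, and_true, Prod.exists]
        constructor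
        · rintro ⟨m, i', j, h, rfl⟩ h'
          rw [hpt] at h
          obtain ⟨hm, hj⟩ := aux _ _ _ h.1
          subst hj
          rw [hzd] at h
          apply hm
          have h9 : (m : ZMod n) = (e w).2 / (z ζ (e w).1 - 1) * z ζ i0 := by
            have h10 : z ζ i' * z ζ i0 = 1 := by
              rw [← z_add hζ, h', neg_add_cancel, z_zero]
            calc (m : ZMod n) = (m * (z ζ i' * (z ζ (e w).1 - 1))) / (z ζ (e w).1 - 1) * z ζ i0 := by
                  rw [show (m : ZMod n) * (z ζ i' * (z ζ (e w).1 - 1))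
                      = (m * z ζ i') * (z ζ (e w).1 - 1) by ring, mul_div_assoc,
                    div_self hden, mul_one, mul_assoc, h10, mul_one]
              _ = _ := by rw [h.2]
          rw [h9]; exact hi0
        · intro hi
          have hne : (e w).2 / (z ζ (e w).1 - 1) * z ζ (-i) ≠ 0 :=
            mul_ne_zero (div_ne_zero h0 hden) (z_ne hζ _)
          refine ⟨Units.mk0 _ hne, i, i + (e w).1, ?_, rfl⟩
          rw [hpt, hzd]
          constructor
          · rw [Units.val_mk0, if_neg]
            · ring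
            · intro hcon
              apply hi
              have := hi0' (-i) hcon
              rw [← this]; ring
          · rw [Units.val_mk0]
            have : z ζ (-i) * z ζ i = 1 := by rw [← z_add hζ, neg_add_cancel, z_zero]
            calc (e w).2 / (z ζ (e w).1 - 1) * z ζ (-i) * (z ζ i * (z ζ (e w).1 - 1))
                = ((e w).2 / (z ζ (e w).1 - 1) * (z ζ (e w).1 - 1)) * (z ζ (-i) * z ζ i) := by ring
              _ = (e w).2 := by rw [this, mul_one, div_mul_cancel₀ _ hden]
      rw [himg, card_erase_of_mem (mem_univ _), card_univ, ZMod.card]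

end

end Pool.Agent.W2helper68.CD.Neg
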